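import Pool.Agent.Run7.h62.RV.Iface

/-! Pieces GORD, HELL, CIRC of MP_620441_co (helper62). -/

namespace Pool.Agent.Run7.h62.RV

open Finset

noncomputable section

open scoped Classical

theorem sgn_or {s : ℕ} (T : Finset (Fin s)) (i : Fin s) : sgn T i = 1 ∨ sgn T i = -1 := by
  unfold sgn; split_ifs <;> simp

theorem sgn_mul_self {s : ℕ} (T : Finset (Fin s)) (i : Fin s) : sgn T i * sgn T i = 1 := by
  rcases sgn_or T i with h | h <;> rw [h] <;> norm_num

theorem sgn_ne_zero {s : ℕ} (T : Finset (Fin s)) (i : Fin s) : sgn T i ≠ 0 := by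
  rcases sgn_or T i with h | h <;> rw [h] <;> norm_num

theorem sgn_of_mem {s : ℕ} {T : Finset (Fin s)} {i : Fin s} (h : i ∈ T) : sgn T i = 1 := by
  simp [sgn, h]

theorem sgn_of_notMem {s : ℕ} {T : Finset (Fin s)} {i : Fin s} (h : i ∉ T) : sgn T i = -1 := by
  simp [sgn, h]

theorem p_GORD : S_GORD := by
  intro s d v J T
  constructor
  · intro hns
    have h0 : (0 : VS d) ∈ convexHull ℝ (Set.range (fun j : J => sgn T j • v j)) := by
      by_contra h0
      have hcl : IsClosed (convexHull ℝ (Set.range (fun j : J => sgn T j • v j))) :=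
        ((Set.finite_range _).isCompact_convexHull ℝ).isClosed
      obtain ⟨f, c, hf, hc⟩ := geometric_hahn_banach_closed_point (convex_convexHull ℝ _) hcl h0
      apply hns
      refine ⟨-(f : VS d →ₗ[ℝ] ℝ), fun j hj => ?_⟩
      have h1 := hf (sgn T j • v j) (subset_convexHull ℝ _ ⟨⟨j, hj⟩, rfl⟩)
      rw [map_zero] at hc
      rw [map_smul, smul_eq_mul] at h1
      simp only [LinearMap.neg_apply, ContinuousLinearMap.coe_coe]
      linarith
    rw [convexHull_range_eq_exists_affineCombination] at h0
    obtain ⟨t, w, hw, hw1, h0⟩ := h0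
    rw [Finset.affineCombination_eq_linear_combination _ _ _ hw1] at h0
    refine ⟨fun j => if h : j ∈ J then (if ⟨j, h⟩ ∈ t then sgn T j * w ⟨j, h⟩ else 0) else 0,
      ?_, ?_, ?_, ?_⟩
    · intro hx
      have : ∑ i ∈ t, w i = 0 := by
        apply Finset.sum_eq_zero
        intro i hi
        have := congrFun hx i.1
        simp only [i.2, dif_pos, Pi.zero_apply] at this
        rw [if_pos (by simpa using hi)] at this
        exact (mul_eq_zero.1 this).resolve_left (sgn_ne_zero _ _)
      rw [this] at hw1
      exact zero_ne_one hw1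
    · intro j hj
      simp [hj]
    · intro j
      by_cases h : j ∈ J
      · by_cases h2 : (⟨j, h⟩ : J) ∈ t
        · simp only [h, dif_pos, h2, if_true]
          rw [← mul_assoc, sgn_mul_self, one_mul]
          exact hw _ h2
        · simp [h, h2]
      · simp [h]
    · rw [← h0]
      have h1 : ∀ j : Fin s, j ∉ J → (if h : j ∈ J then (if (⟨j, h⟩ : J) ∈ t then
          sgn T j * w ⟨j, h⟩ else 0) else 0) • v j = 0 := by
        intro j hj; simp [hj]
      rw [← Finset.sum_subset (Finset.subset_univ J) (fun j _ hj => h1 j hj),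
        ← Finset.sum_coe_sort J]
      simp only [Finset.coe_mem, dif_pos, Subtype.coe_eta]
      rw [← Finset.sum_subset (Finset.subset_univ t)]
      · apply Finset.sum_congr rfl
        intro i hi
        rw [if_pos hi, mul_comm, mul_smul]
      · intro i _ hi
        rw [if_neg hi, zero_smul]
  · rintro ⟨x, hx0, hxJ, hxs, hx⟩ ⟨f, hf⟩
    have h1 := congrArg f hx
    rw [map_sum, map_zero] at h1
    simp only [map_smul, smul_eq_mul] at h1
    have hterm : ∀ j, 0 ≤ x j * f (v j) := by
      intro j
      by_cases hj : j ∈ J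
      · have := mul_nonneg (hxs j) (hf j hj).le
        calc (0:ℝ) ≤ sgn T j * x j * (sgn T j * f (v j)) := this
          _ = (sgn T j * sgn T j) * (x j * f (v j)) := by ring
          _ = x j * f (v j) := by rw [sgn_mul_self, one_mul]
      · rw [hxJ j hj, zero_mul]
    have h2 := (Finset.sum_eq_zero_iff_of_nonneg (fun j _ => hterm j)).1 h1
    apply hx0
    funext j
    by_cases hj : j ∈ J
    · have h3 := h2 j (mem_univ j)
      have h4 : f (v j) ≠ 0 := by
        intro h5
        have := hf j hj
        rw [h5, mul_zero] at this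
        exact lt_irrefl _ this
      exact (mul_eq_zero.1 h3).resolve_right h4
    · exact hxJ j hj

theorem finrank_VS (d : ℕ) : Module.finrank ℝ (VS d) = d + 1 := by
  rw [Module.finrank_prod]
  simp [add_comm]

theorem p_HELL : S_HELL := by
  intro s d v J T hJ h
  have hfr : Module.finrank ℝ (Module.Dual ℝ (VS d)) = d + 1 := by
    rw [Subspace.dual_finrank_eq, finrank_VS]
  have := Convex.helly_theorem (𝕜 := ℝ) (E := Module.Dual ℝ (VS d)) (s := J)
    (F := fun j => {f : Module.Dual ℝ (VS d) | 0 < sgn T j * f (v j)})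
    (by rw [hfr]; exact hJ)
    (by
      intro j hj f hf g hg a b ha hb hab
      simp only [Set.mem_ofPred_eq] at hf hg ⊢
      have e : sgn T j * ((a • f + b • g : Module.Dual ℝ (VS d)) (v j)) =
          a * (sgn T j * f (v j)) + b * (sgn T j * g (v j)) := by
        simp only [LinearMap.add_apply, LinearMap.smul_apply, smul_eq_mul]; ring
      rw [e]
      rcases ha.lt_or_eq with h1 | h1
      · have := mul_pos h1 hf
        have := mul_nonneg hb hg.le
        linarith
      · subst h1
        have : b = 1 := by linarith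
        subst this
        linarith)
    (by
      intro I hI hI2
      rw [hfr] at hI2
      obtain ⟨f, hf⟩ := h I hI hI2
      exact ⟨f, by simpa using hf⟩)
  obtain ⟨f, hf⟩ := this
  exact ⟨f, by simpa using hf⟩

/-- Linear independence on a finset in terms of dependencies on the whole index set. -/
theorem linInd_iff_dep {s d : ℕ} (v : Fin s → VS d) (A : Finset (Fin s)) :
    LinearIndependent ℝ (fun i : A => v i) ↔
      ∀ y : Fin s → ℝ, (∀ j ∉ A, y j = 0) → ∑ j, y j • v j = 0 → y = 0 := by
  rw [Fintype.linearIndependent_iff]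
  constructor
  · intro h y hy hs
    rw [← Finset.sum_subset (Finset.subset_univ A)
      (fun j _ hj => by rw [hy j hj, zero_smul]), ← Finset.sum_coe_sort A] at hs
    funext j
    by_cases hj : j ∈ A
    · exact h (fun i => y i) hs ⟨j, hj⟩
    · exact hy j hj
  · intro h g hg i
    have := h (fun j => if hj : j ∈ A then g ⟨j, hj⟩ else 0) (fun j hj => by simp [hj])
      (by
        rw [← Finset.sum_subset (Finset.subset_univ A)
          (fun j _ hj => by simp [hj]), ← Finset.sum_coe_sort A]
        rw [← hg]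
        apply Finset.sum_congr rfl
        intro i _
        simp)
    have h2 := congrFun this i.1
    simpa using h2

theorem not_linInd_iff_dep {s d : ℕ} (v : Fin s → VS d) (A : Finset (Fin s)) :
    ¬ LinearIndependent ℝ (fun i : A => v i) ↔
      ∃ y : Fin s → ℝ, y ≠ 0 ∧ (∀ j ∉ A, y j = 0) ∧ ∑ j, y j • v j = 0 := by
  rw [linInd_iff_dep]
  push Not
  constructor
  · rintro ⟨y, h1, h2, h3⟩; exact ⟨y, h3, h1, h2⟩
  · rintro ⟨y, h3, h1, h2⟩; exact ⟨y, h1, h2, h3⟩

theorem linInd_mono {s d : ℕ} {v : Fin s → VS d} {A B : Finset (Fin s)} (h : A ⊆ B)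
    (hB : LinearIndependent ℝ (fun i : B => v i)) : LinearIndependent ℝ (fun i : A => v i) := by
  rw [linInd_iff_dep] at hB ⊢
  intro y hy hs
  exact hB y (fun j hj => hy j (fun h2 => hj (h h2))) hs

theorem mem_NS {s d : ℕ} {v : Fin s → VS d} {J T : Finset (Fin s)} :
    T ∈ NS v J ↔ T ⊆ J ∧ ¬ Sep v J T := by
  simp [NS]

theorem p_CIRC : S_CIRC := by
  intro s d v J hJ hgen
  have hdep : ¬ LinearIndependent ℝ (fun i : J => v i) := by
    intro h
    have := h.fintype_card_le_finrank
    rw [finrank_VS, Fintype.card_coe, hJ] at this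
    omega
  rw [not_linInd_iff_dep] at hdep
  obtain ⟨x, hx0, hxJ, hx⟩ := hdep
  have key : ∀ y : Fin s → ℝ, (∀ j ∉ J, y j = 0) → ∑ j, y j • v j = 0 →
      ∀ j ∈ J, y j = 0 → y = 0 := by
    intro y hyJ hy j hj hyj
    have hli := hgen (J.erase j) (Finset.erase_subset _ _) (by
      rw [Finset.card_erase_of_mem hj, hJ]; omega)
    rw [linInd_iff_dep] at hli
    apply hli y _ hy
    intro i hi
    by_cases hij : i = j
    · rw [hij]; exact hyj
    · apply hyJ
      intro h2
      exact hi (Finset.mem_erase.2 ⟨hij, h2⟩)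
  have hxne : ∀ j ∈ J, x j ≠ 0 := fun j hj h => hx0 (key x hxJ hx j hj h)
  obtain ⟨j0, hj0⟩ : J.Nonempty := by
    rw [← Finset.card_pos, hJ]; omega
  have huniq : ∀ y : Fin s → ℝ, (∀ j ∉ J, y j = 0) → ∑ j, y j • v j = 0 →
      ∃ c : ℝ, y = c • x := by
    intro y hyJ hy
    refine ⟨y j0 / x j0, ?_⟩
    have := key (y - (y j0 / x j0) • x) (fun j hj => by simp [hyJ j hj, hxJ j hj])
      (by
        simp only [Pi.sub_apply, Pi.smul_apply, smul_eq_mul, sub_smul, Finset.sum_sub_distrib, hy,
          mul_smul]
        rw [← Finset.smul_sum, hx]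
        simp) j0 hj0 (by
        simp only [Pi.sub_apply, Pi.smul_apply, smul_eq_mul]
        rw [div_mul_cancel₀ _ (hxne j0 hj0), sub_self])
    exact sub_eq_zero.1 this
  refine ⟨x, hxne, hxJ, hx, huniq, ?_⟩
  ext T
  rw [mem_NS, Finset.mem_insert, Finset.mem_singleton]
  constructor
  · rintro ⟨hTJ, hT⟩
    rw [p_GORD] at hT
    obtain ⟨y, hy0, hyJ, hys, hy⟩ := hT
    obtain ⟨c, rfl⟩ := huniq y hyJ hy
    have hc0 : c ≠ 0 := by
      rintro rfl
      simp at hy0
    rcases lt_or_gt_of_ne hc0 with hc | hc
    · right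
      ext j
      rw [Finset.mem_filter]
      have h1 := hys j
      simp only [Pi.smul_apply, smul_eq_mul] at h1
      constructor
      · intro hj
        refine ⟨hTJ hj, ?_⟩
        rw [sgn_of_mem hj, one_mul] at h1
        have h2 := hxne j (hTJ hj)
        by_contra h3
        have h4 : 0 < x j := lt_of_le_of_ne (not_lt.1 h3) (Ne.symm h2)
        have := mul_neg_of_neg_of_pos hc h4
        linarith
      · rintro ⟨_, hj2⟩
        by_contra hj
        rw [sgn_of_notMem hj] at h1
        have := mul_pos_of_neg_of_neg hc hj2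
        linarith
    · left
      ext j
      rw [Finset.mem_filter]
      have h1 := hys j
      simp only [Pi.smul_apply, smul_eq_mul] at h1
      constructor
      · intro hj
        refine ⟨hTJ hj, ?_⟩
        rw [sgn_of_mem hj, one_mul] at h1
        have h2 := hxne j (hTJ hj)
        by_contra h3
        have h4 : x j < 0 := lt_of_le_of_ne (not_lt.1 h3) h2
        have := mul_neg_of_pos_of_neg hc h4
        linarith
      · rintro ⟨_, hj2⟩
        by_contra hj
        rw [sgn_of_notMem hj] at h1
        have := mul_pos hc hj2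
        linarith
  · rintro (rfl | rfl)
    · refine ⟨Finset.filter_subset _ _, ?_⟩
      rw [p_GORD]
      refine ⟨x, hx0, hxJ, fun j => ?_, hx⟩
      by_cases hj : j ∈ J
      · by_cases hj2 : 0 < x j
        · rw [sgn_of_mem (by simp [hj, hj2]), one_mul]; exact hj2.le
        · rw [sgn_of_notMem (by simp [hj2])]
          push Not at hj2
          linarith
      · rw [hxJ j hj, mul_zero]
    · refine ⟨Finset.filter_subset _ _, ?_⟩
      rw [p_GORD]
      refine ⟨-x, neg_ne_zero.2 hx0, fun j hj => by simp [hxJ j hj], fun j => ?_, ?_⟩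
      · by_cases hj : j ∈ J
        · by_cases hj2 : x j < 0
          · rw [sgn_of_mem (by simp [hj, hj2]), one_mul, Pi.neg_apply]; linarith
          · rw [sgn_of_notMem (by simp [hj2]), Pi.neg_apply]
            push Not at hj2
            linarith
        · rw [Pi.neg_apply, hxJ j hj, neg_zero, mul_zero]
      · simp only [Pi.neg_apply, neg_smul, Finset.sum_neg_distrib, hx, neg_zero]

end

end Pool.Agent.Run7.h62.RV
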