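import Pool.Agent.Run7.h62.RV.Loc2

/-! Piece DATA of MP_620441_co (helper62). -/

namespace Pool.Agent.Run7.h62.RV

open Finset Filter Topology

noncomputable section

open scoped Classical

theorem p_DATA : S_DATA := by
  intro s d v B hs hB
  obtain ⟨x, hx0, hxB, hx⟩ := (not_linInd_iff_dep v B).1 hB.2.1
  have hne_erase : ∀ b ∈ B, B.erase b ≠ B := by
    intro b hb h
    have := Finset.notMem_erase b B
    rw [h] at this
    exact this hb
  have hxne : ∀ b ∈ B, x b ≠ 0 := by
    intro b hb h
    have hli := hB.2.2 (B.erase b) (by rw [Finset.card_erase_of_mem hb, hB.1]; omega)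
      (hne_erase b hb)
    rw [linInd_iff_dep] at hli
    apply hx0
    apply hli x _ hx
    intro i hi
    by_cases hij : i = b
    · rw [hij]; exact h
    · apply hxB
      intro h2
      exact hi (Finset.mem_erase.2 ⟨hij, h2⟩)
  obtain ⟨b0, hb0⟩ : B.Nonempty := by
    rw [← Finset.card_pos, hB.1]; omega
  obtain ⟨q0, hq0⟩ : ∃ q0, q0 ∉ B := by
    by_contra h
    push Not at h
    have : B = univ := Finset.eq_univ_iff_forall.2 h
    have h2 := hB.1
    rw [this, Finset.card_univ, Fintype.card_fin] at h2
    omega
  have hBe : (B.erase b0).card = d := by rw [Finset.card_erase_of_mem hb0, hB.1]; omega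
  have hq0' : q0 ∉ B.erase b0 := fun h => hq0 (Finset.mem_of_mem_erase h)
  have hli := hB.2.2 (insert q0 (B.erase b0)) (by
    rw [Finset.card_insert_of_notMem hq0', hBe]) (by
    intro h
    apply hq0
    rw [← h]; exact Finset.mem_insert_self _ _)
  obtain ⟨f, hf⟩ := exists_functional hli (fun i => if i = q0 then 1 else 0)
  have hfq0 : f (v q0) = 1 := by
    rw [hf q0 (Finset.mem_insert_self _ _)]; simp
  have hfB' : ∀ b ∈ B.erase b0, f (v b) = 0 := by
    intro b hb
    rw [hf b (Finset.mem_insert_of_mem hb), if_neg]
    rintro rfl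
    exact hq0' hb
  have hfb0 : f (v b0) = 0 := by
    have h1 := congrArg f hx
    rw [map_sum, map_zero] at h1
    simp only [map_smul, smul_eq_mul] at h1
    rw [Finset.sum_eq_single b0] at h1
    · exact (mul_eq_zero.1 h1).resolve_left (hxne b0 hb0)
    · intro j _ hj
      by_cases hjB : j ∈ B
      · rw [hfB' j (Finset.mem_erase.2 ⟨hj, hjB⟩), mul_zero]
      · rw [hxB j hjB, zero_mul]
    · intro h; exact absurd (Finset.mem_univ b0) h
  have hfB : ∀ b ∈ B, f (v b) = 0 := by
    intro b hb
    by_cases h : b = b0
    · rw [h]; exact hfb0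
    · exact hfB' b (Finset.mem_erase.2 ⟨h, hb⟩)
  have hfq : ∀ q ∉ B, f (v q) ≠ 0 := by
    intro q hq h
    by_cases hqq : q = q0
    · rw [hqq, hfq0] at h; exact one_ne_zero h
    · have hq' : q ∉ B.erase b0 := fun h => hq (Finset.mem_of_mem_erase h)
      have hq0'' : q0 ∉ insert q (B.erase b0) := by
        rw [Finset.mem_insert]
        rintro (h | h)
        · exact hqq h.symm
        · exact hq0' h
      have hJ : (insert q0 (insert q (B.erase b0))).card = d + 2 := by
        rw [Finset.card_insert_of_notMem hq0'', Finset.card_insert_of_notMem hq', hBe]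
      obtain ⟨y, hy1, hy2, hy3, -, -⟩ := p_CIRC s d v _ hJ (by
        intro A hA hAc
        apply hB.2.2 A hAc
        rintro rfl
        have := hA hb0
        rw [Finset.mem_insert, Finset.mem_insert] at this
        rcases this with h | h | h
        · rw [h] at hb0; exact hq0 hb0
        · rw [h] at hb0; exact hq hb0
        · exact Finset.notMem_erase _ _ h)
      have h1 := congrArg f hy3
      rw [map_sum, map_zero] at h1
      simp only [map_smul, smul_eq_mul] at h1
      rw [Finset.sum_eq_single q0] at h1
      · rw [hfq0, mul_one] at h1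
        exact hy1 q0 (Finset.mem_insert_self _ _) h1
      · intro j _ hj
        by_cases hj2 : j = q
        · rw [hj2, h, mul_zero]
        · by_cases hjB : j ∈ B.erase b0
          · rw [hfB' j hjB, mul_zero]
          · rw [hy2 j (by simp only [Finset.mem_insert, hj, hj2, hjB, or_self, not_false_eq_true]),
              zero_mul]
      · intro h; exact absurd (Finset.mem_univ q0) h
  refine ⟨B.filter (fun b => 0 < x b), Bᶜ.filter (fun q => 0 < f (v q)),
    Finset.filter_subset _ _, Finset.filter_subset _ _, ⟨x, ?_, hxB, hx⟩, f, hfB, ?_⟩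
  · intro b hb
    by_cases h : 0 < x b
    · rw [sgn_of_mem (by simp [hb, h]), one_mul]; exact h
    · rw [sgn_of_notMem (by simp [h])]
      have : x b < 0 := lt_of_le_of_ne (not_lt.1 h) (hxne b hb)
      linarith
  · intro q hq
    by_cases h : 0 < f (v q)
    · rw [sgn_of_mem (by simp [hq, h]), one_mul]; exact h
    · rw [sgn_of_notMem (by simp [h])]
      have : f (v q) < 0 := lt_of_le_of_ne (not_lt.1 h) (hfq q hq)
      linarith

end

end Pool.Agent.Run7.h62.RV
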