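import Pool.Agent.Run7.h62.RV.DataP

/-! Assembly of MP_620441_co (helper62), part 1: foldings. -/

namespace Pool.Agent.Run7.h62.RV

open Finset Filter Topology

noncomputable section

open scoped Classical

theorem symm_succ {m l : ℕ} (hl : l = m / 2) (x : Fin l → ℝ) (i : Fin l) :
    symm m x ((i : ℕ) + 1) = x i := by
  have hi := i.2
  have h1 : min ((i : ℕ) + 1) (m - ((i : ℕ) + 1)) = (i : ℕ) + 1 := by
    rw [min_eq_left]; omega
  unfold symm
  rw [dif_pos]
  · congr 1
    apply Fin.ext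
    simp only [h1]
    omega
  · rw [h1]; constructor <;> omega

theorem symm_sub {m l : ℕ} (x : Fin l → ℝ) {j : ℕ} (hj : j ≤ m) :
    symm m x (m - j) = symm m x j := by
  unfold symm
  have h1 : min (m - j) (m - (m - j)) = min j (m - j) := by
    rw [Nat.sub_sub_self hj, min_comm]
  simp only [h1]

theorem symm_Symm {m l : ℕ} (x : Fin l → ℝ) : Symm m (symm m x) := fun _ hj => symm_sub x hj

theorem symm_zero {m l : ℕ} (x : Fin l → ℝ) : symm m x 0 = 0 := by
  unfold symm; simp

theorem symm_self {m l : ℕ} (x : Fin l → ℝ) : symm m x m = 0 := by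
  unfold symm; simp

theorem ordered_zero {m l : ℕ} (x : Fin l → ℝ) : ordered m x 0 = 0 := by
  unfold ordered; rw [symm_zero, mul_zero]

theorem ordered_self {m l : ℕ} (x : Fin l → ℝ) : ordered m x m = 0 := by
  unfold ordered; rw [symm_self, mul_zero]

theorem ordered_comb {m l : ℕ} (c : ℝ) (x y z : Fin l → ℝ) (j : ℕ) :
    ordered m (c • (x - y) + z) j = c * (ordered m x j - ordered m y j) + ordered m z j := by
  unfold ordered symm
  by_cases h : 0 < min j (m - j) ∧ min j (m - j) - 1 < l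
  · simp only [dif_pos h, Pi.add_apply, Pi.smul_apply, Pi.sub_apply, smul_eq_mul]
    ring
  · simp only [dif_neg h, mul_zero, sub_zero, add_zero]

theorem ordered_eq {m l : ℕ} (hl : l = m / 2) (c R : ℕ → ℕ) (hR : ∀ i ≤ m, R (m - i) = R i)
    (h : ∀ i, 1 ≤ i → 2 * i ≤ m → (if 2 * i = m then 2 else 1) * c i = R i) {j : ℕ} (h1 : 1 ≤ j)
    (h2 : j < m) : ordered m (fun i : Fin l => (c ((i : ℕ) + 1) : ℝ)) j = (R j : ℝ) := by
  set i := min j (m - j) with hi
  have hi1 : 1 ≤ i := by rw [hi]; exact le_min h1 (by omega)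
  have hi2 : 2 * i ≤ m := by
    rw [hi]
    rcases le_total j (m - j) with h | h
    · rw [min_eq_left h]; omega
    · rw [min_eq_right h]; omega
  have hRi : R i = R j := by
    rcases le_total j (m - j) with h | h
    · rw [hi, min_eq_left h]
    · rw [hi, min_eq_right h]; exact hR j h2.le
  have h2i : (2 * j = m) ↔ (2 * i = m) := by
    rcases le_total j (m - j) with h | h
    · rw [hi, min_eq_left h]
    · rw [hi, min_eq_right h]; omega
  have h3 : symm m (fun i : Fin l => (c ((i : ℕ) + 1) : ℝ)) j = (c i : ℝ) := by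
    unfold symm
    rw [dif_pos ⟨by rw [← hi]; omega, by rw [← hi]; omega⟩]
    have : min j (m - j) - 1 + 1 = i := by rw [← hi]; omega
    simp only [this]
  unfold ordered
  rw [h3, ← hRi, ← h i hi1 hi2]
  by_cases h4 : 2 * j = m
  · rw [if_pos h4, if_pos (h2i.1 h4)]; push_cast; ring
  · rw [if_neg h4, if_neg (fun h => h4 (h2i.2 h))]; push_cast; ring

variable {s d : ℕ}

theorem sum_NS_eq {v : Fin s → VS d} (J : Finset (Fin s)) (g : ℕ → ℝ) {m : ℕ} (hm : J.card = m) :
    ∑ T ∈ NS v J, g T.card =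
      ∑ j ∈ range (m + 1), g j * (((NS v J).filter (fun T => T.card = j)).card : ℝ) := by
  rw [← Finset.sum_fiberwise_of_maps_to (s := NS v J) (t := range (m + 1))
    (g := fun T : Finset (Fin s) => T.card)]
  · apply Finset.sum_congr rfl
    intro j _
    rw [Finset.sum_congr rfl (g := fun _ => g j), Finset.sum_const, nsmul_eq_mul, mul_comm]
    intro T hT
    rw [(Finset.mem_filter.1 hT).2]
  · intro T hT
    rw [Finset.mem_range]
    have := Finset.card_le_card (mem_NS.1 hT).1
    omega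

theorem sum_range_eq_Ico (F : ℕ → ℝ) {m : ℕ} (hm : 1 ≤ m) (h0 : F 0 = 0) (h1 : F m = 0) :
    ∑ j ∈ range (m + 1), F j = ∑ j ∈ Ico 1 m, F j := by
  rw [Finset.sum_range_succ, h1, add_zero, Finset.range_eq_Ico,
    Finset.sum_eq_sum_Ico_succ_bot (by omega), h0, zero_add]

/-- `Phi` in terms of the ordered counts. -/
theorem Phi_eq {v : Fin s → VS d} (α β : ℕ → ℝ) (hs : 1 ≤ s) (h0 : RN v 0 = 0) (h1 : RN v s = 0)
    (h2 : PN v 0 = 0) (h3 : PN v (d + 2) = 0) :
    Phi α β v = ∑ j ∈ Ico 1 s, α j * (RN v j : ℝ) + ∑ j ∈ Ico 1 (d + 2), β j * (PN v j : ℝ) := by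
  unfold Phi
  congr 1
  · rw [sum_NS_eq univ α (m := s) (by simp)]
    exact sum_range_eq_Ico (fun j => α j * (RN v j : ℝ)) hs (by simp [h0]) (by simp [h1])
  · have e : ∑ J ∈ powersetCard (d + 2) (univ : Finset (Fin s)), ∑ T ∈ NS v J, β T.card =
        ∑ j ∈ range (d + 2 + 1), β j * (PN v j : ℝ) := by
      rw [Finset.sum_congr rfl (fun J hJ => sum_NS_eq J β (Finset.mem_powersetCard.1 hJ).2),
        Finset.sum_comm]
      apply Finset.sum_congr rfl
      intro j _
      rw [← Finset.mul_sum]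
      unfold PN
      push_cast
      rfl
    rw [e]
    exact sum_range_eq_Ico (fun j => β j * (PN v j : ℝ)) (by omega) (by simp [h2]) (by simp [h3])

end

end Pool.Agent.Run7.h62.RV
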