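import Pool.Agent.Run7.h62.RV.Fin1
import Pool.Agent.Run7.h102.RV.MOM
import Pool.Agent.Run7.h102.RV.GP
import Pool.Agent.Run7.h416.RV.ANN
import Pool.Agent.Run7.h416.RV.ONE
import Pool.Agent.Run7.h416.RV.FOLD
import Pool.Agent.Run7.h426.RV.CNT
import Pool.Agent.Run7.h426.RV.INV
import Pool.Agent.Run7.h632.RV.Rad
import Pool.Agent.Run7.h639.RV.Real
import Pool.Agent.Run7.h639.RV.Two

/-! Assembly of MP_620441_co (helper62), part 2. -/

namespace Pool.Agent.Run7.h62.RV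

open Finset Filter Topology

noncomputable section

open scoped Classical

variable {s d : ℕ}

/-- The vector of `r_i`. -/
def rV (s : ℕ) {d : ℕ} (S : Finset (Pt d)) : Fin (s / 2) → ℝ :=
  fun i => (radonNumber S ((i : ℕ) + 1) : ℝ)

/-- The vector of `P_i`. -/
def pV {d : ℕ} (S : Finset (Pt d)) : Fin (d / 2 + 1) → ℝ :=
  fun i => (primitiveNumber S ((i : ℕ) + 1) : ℝ)

/-- The functional with weights `α, β`. -/
def fun2 (s d : ℕ) (α β : ℕ → ℝ) (r : Fin (s / 2) → ℝ) (P : Fin (d / 2 + 1) → ℝ) : ℝ :=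
  ∑ i : Fin (s / 2), α ((i : ℕ) + 1) * r i + ∑ i : Fin (d / 2 + 1), β ((i : ℕ) + 1) * P i

theorem rad_facts (hd : 1 ≤ d) (hs : d + 2 ≤ s) {p : Fin s → Pt d} (hp : Gen (lift p)) :
    RN (lift p) 0 = 0 ∧ RN (lift p) s = 0 ∧ (∀ i ≤ s, RN (lift p) (s - i) = RN (lift p) i) ∧
  ∀ i, 1 ≤ i → 2 * i ≤ s →
    (if 2 * i = s then 2 else 1) * radonNumber (univ.image p) i = RN (lift p) i :=
  Run7.h632.RV.rad Run7.h632.RV.bri s d p hd (by omega) hp

theorem pri_facts (hd : 1 ≤ d) (hs : d + 2 ≤ s) {p : Fin s → Pt d} (hp : Gen (lift p)) :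
    PN (lift p) 0 = 0 ∧ PN (lift p) (d + 2) = 0 ∧
    (∀ i ≤ d + 2, PN (lift p) (d + 2 - i) = PN (lift p) i) ∧
  ∀ i, 1 ≤ i → 2 * i ≤ d + 2 →
    (if 2 * i = d + 2 then 2 else 1) * primitiveNumber (univ.image p) i = PN (lift p) i :=
  Run7.h632.RV.pri Run7.h632.RV.bri p_GORD p_HELL s d p hd hs hp

theorem half_eq (d : ℕ) : d / 2 + 1 = (d + 2) / 2 := by omega

theorem ord_r (hd : 1 ≤ d) (hs : d + 2 ≤ s) {p : Fin s → Pt d} (hp : Gen (lift p)) {j : ℕ}
    (hj : j ≤ s) : ordered s (rV s (univ.image p)) j = (RN (lift p) j : ℝ) := by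
  obtain ⟨h0, h1, h2, h3⟩ := rad_facts hd hs hp
  rcases Nat.eq_zero_or_pos j with rfl | hj0
  · rw [ordered_zero, h0]; simp
  · rcases Nat.lt_or_ge j s with hjs | hjs
    · exact ordered_eq rfl (fun i => radonNumber (univ.image p) i) (fun i => RN (lift p) i) h2 h3
        hj0 hjs
    · have : j = s := le_antisymm hj hjs
      rw [this, ordered_self, h1]; simp

theorem ord_p (hd : 1 ≤ d) (hs : d + 2 ≤ s) {p : Fin s → Pt d} (hp : Gen (lift p)) {j : ℕ}
    (hj : j ≤ d + 2) : ordered (d + 2) (pV (univ.image p)) j = (PN (lift p) j : ℝ) := by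
  obtain ⟨h0, h1, h2, h3⟩ := pri_facts hd hs hp
  rcases Nat.eq_zero_or_pos j with rfl | hj0
  · rw [ordered_zero, h0]; simp
  · rcases Nat.lt_or_ge j (d + 2) with hjs | hjs
    · exact ordered_eq (half_eq d) (fun i => primitiveNumber (univ.image p) i)
        (fun i => PN (lift p) i) h2 h3 hj0 hjs
    · have : j = d + 2 := le_antisymm hj hjs
      rw [this, ordered_self, h1]; simp

theorem fun2_eq (r : Fin (s / 2) → ℝ) (P : Fin (d / 2 + 1) → ℝ) {α β : ℕ → ℝ} (hα : Symm s α)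
    (hβ : Symm (d + 2) β) : 2 * fun2 s d α β r P =
      ∑ j ∈ Ico 1 s, α j * ordered s r j + ∑ j ∈ Ico 1 (d + 2), β j * ordered (d + 2) P j := by
  unfold fun2
  rw [mul_add, Pool.Agent.Run7.h416.RV.fold s _ r α rfl hα,
    Pool.Agent.Run7.h416.RV.fold (d + 2) _ P β (half_eq d) hβ]

theorem Phi_fun2 (hd : 1 ≤ d) (hs : d + 2 ≤ s) {p : Fin s → Pt d} (hp : Gen (lift p))
    {α β : ℕ → ℝ} (hα : Symm s α) (hβ : Symm (d + 2) β) :
    Phi α β (lift p) = 2 * fun2 s d α β (rV s (univ.image p)) (pV (univ.image p)) := by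
  obtain ⟨h0, h1, -, -⟩ := rad_facts hd hs hp
  obtain ⟨h2, h3, -, -⟩ := pri_facts hd hs hp
  rw [fun2_eq _ _ hα hβ, Phi_eq α β (by omega) h0 h1 h2 h3]
  congr 1
  · apply Finset.sum_congr rfl
    intro j hj
    rw [ord_r hd hs hp (Finset.mem_Ico.1 hj).2.le]
  · apply Finset.sum_congr rfl
    intro j hj
    rw [ord_p hd hs hp (Finset.mem_Ico.1 hj).2.le]

theorem mem_VV_of_gen (hd : 1 ≤ d) (hs : d + 2 ≤ s) {p : Fin s → Pt d} (hp : Gen (lift p)) :
    (rV s (univ.image p), pV (univ.image p)) ∈ VV s d := by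
  obtain ⟨h1, h2⟩ := (p_GP s d hd hs).2 p hp
  exact ⟨univ.image p, h1, h2, rfl⟩

theorem exists_of_mem_VV (hd : 1 ≤ d) (hs : d + 2 ≤ s)
    {x : (Fin (s / 2) → ℝ) × (Fin (d / 2 + 1) → ℝ)} (hx : x ∈ VV s d) :
    ∃ p : Fin s → Pt d, Gen (lift p) ∧ x = (rV s (univ.image p), pV (univ.image p)) := by
  obtain ⟨S, hS, hG, rfl⟩ := hx
  obtain ⟨p, rfl, hp⟩ := (p_GP s d hd hs).1 S hS hG
  exact ⟨p, hp, rfl⟩

theorem inv {α β : ℕ → ℝ} (hd : 1 ≤ d) (hs : d + 2 ≤ s) (hα : Symm s α) (hβ : Symm (d + 2) β)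
    (hb : Balanced s d α β) {p p' : Fin s → Pt d} (hp : Gen (lift p)) (hp' : Gen (lift p')) :
    Phi α β (lift p) = Phi α β (lift p') :=
  p_INV p_LOC p_LOCG p_DATA s d α β hd hs hα hβ hb p p' hp hp'

theorem gen_mom (s d : ℕ) : Gen (lift (mom s d)) := (p_MOM p_CIRC).1 s d

theorem cnt_mom (hd : 1 ≤ d) (hs : 1 ≤ s) :
  (((NS (lift (mom s d)) univ).card : ℝ) = 2 * tau s d) ∧
  (Even s → Odd d → ∑ T ∈ NS (lift (mom s d)) univ, (-1 : ℝ) ^ T.card = 0) ∧
  (∑ T ∈ NS (lift (mom s d)) univ, ((s : ℝ) - 2 * T.card) ^ 2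
    - ∑ J ∈ powersetCard (d + 2) (univ : Finset (Fin s)),
        ∑ T ∈ NS (lift (mom s d)) J, ((d : ℝ) + 2 - 2 * T.card) ^ 2
    = 2 * ((s : ℝ) * tau s d - (d + 2) * (s.choose (d + 2) : ℝ))) := by
  obtain ⟨m, rfl⟩ : ∃ m, s = m + 1 := ⟨s - 1, by omega⟩
  exact p_CNT m d hd (fun T => (p_MOM p_CIRC).2.1 m d T) (fun J hJ => (p_MOM p_CIRC).2.2 _ d J hJ)

theorem symm_const (m : ℕ) (c : ℝ) : Symm m (fun _ => c) := fun _ _ => rfl

theorem rel_sumP (hd : 1 ≤ d) (hs : d + 2 ≤ s) {p : Fin s → Pt d} (hp : Gen (lift p)) :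
    ∑ i, pV (univ.image p) i = (s.choose (d + 2) : ℝ) := by
  have h := Phi_fun2 hd hs hp (symm_const s 0) (symm_const (d + 2) 1)
  unfold fun2 Phi at h
  simp only [Finset.sum_const_zero, zero_add, zero_mul, one_mul, Finset.sum_const, nsmul_eq_mul,
    mul_one] at h
  rw [Finset.sum_congr rfl (g := fun _ => (2 : ℝ))] at h
  · rw [Finset.sum_const, Finset.card_powersetCard, Finset.card_univ, Fintype.card_fin,
      nsmul_eq_mul] at h
    linarith
  · intro J hJ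
    rw [card_NS (Finset.mem_powersetCard.1 hJ).2 (fun A _ hA => hp A hA)]
    norm_num

theorem rel_sumR (hd : 1 ≤ d) (hs : d + 2 ≤ s) {p : Fin s → Pt d} (hp : Gen (lift p)) :
    ∑ i, rV s (univ.image p) i = tau s d := by
  have hb : Balanced s d (fun _ => 1) (fun _ => 0) := by
    intro a k _ _ _; simp
  have h := Phi_fun2 hd hs hp (symm_const s 1) (symm_const (d + 2) 0)
  have h2 := inv hd hs (symm_const s 1) (symm_const (d + 2) 0) hb hp (gen_mom s d)
  have h3 : Phi (fun _ => 1) (fun _ => 0) (lift (mom s d)) = 2 * tau s d := by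
    rw [← (cnt_mom hd (by omega)).1]
    unfold Phi
    simp
  rw [h2, h3] at h
  unfold fun2 at h
  simp only [one_mul, zero_mul, Finset.sum_const_zero, add_zero] at h
  linarith

theorem neg_one_pow_sub' {t j : ℕ} (ht : Even t) (hj : j ≤ t) :
    (-1 : ℝ) ^ (t - j) = (-1) ^ j := by
  have h1 : (-1 : ℝ) ^ (t - j) * (-1) ^ j = 1 := by
    rw [← pow_add, Nat.sub_add_cancel hj]; exact ht.neg_one_pow
  have h2 : (-1 : ℝ) ^ j * (-1) ^ j = 1 := by
    rw [← pow_add]; exact (Even.neg_one_pow ⟨j, rfl⟩)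
  calc (-1 : ℝ) ^ (t - j) = (-1 : ℝ) ^ (t - j) * ((-1 : ℝ) ^ j * (-1) ^ j) := by rw [h2, mul_one]
    _ = ((-1 : ℝ) ^ (t - j) * (-1) ^ j) * (-1) ^ j := by ring
    _ = _ := by rw [h1, one_mul]

theorem rel_alt (hd : 1 ≤ d) (hs : d + 2 ≤ s) (hse : Even s) (hdo : Odd d) {p : Fin s → Pt d}
    (hp : Gen (lift p)) :
    ∑ i : Fin (s / 2), (-1 : ℝ) ^ ((i : ℕ) + 1) * rV s (univ.image p) i = 0 := by
  have hsy : Symm s (fun j => (-1 : ℝ) ^ j) := by
    intro j hj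
    exact neg_one_pow_sub' hse hj
  have hb : Balanced s d (fun j => (-1 : ℝ) ^ j) (fun _ => 0) := by
    intro a k _ _ hk
    simp only [sub_self, mul_zero]
    have : (-1 : ℝ) ^ (a + (s - d - 1 - k)) = (-1) ^ (a + k) := by
      rw [pow_add, pow_add]
      congr 1
      have he : Even (s - d - 1) := by
        obtain ⟨t, ht⟩ := hse
        obtain ⟨u, hu⟩ := hdo
        exact ⟨t - u - 1, by omega⟩
      exact neg_one_pow_sub' he (by omega)
    rw [this, sub_self]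
  have h := Phi_fun2 hd hs hp hsy (symm_const (d + 2) 0)
  have h2 := inv hd hs hsy (symm_const (d + 2) 0) hb hp (gen_mom s d)
  have h3 : Phi (fun j => (-1 : ℝ) ^ j) (fun _ => 0) (lift (mom s d)) = 0 := by
    have h4 := (cnt_mom (s := s) hd (by omega)).2.1 hse hdo
    unfold Phi
    simp [h4]
  rw [h2, h3] at h
  unfold fun2 at h
  simp only [zero_mul, Finset.sum_const_zero, add_zero] at h
  linarith

theorem rel_quad (hd : 1 ≤ d) (hs : d + 2 ≤ s) {p : Fin s → Pt d} (hp : Gen (lift p)) :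
    ∑ i : Fin (s / 2), ((s : ℝ) - 2 * ((i : ℕ) + 1)) ^ 2 * rV s (univ.image p) i
      - ∑ i : Fin (d / 2 + 1), ((d : ℝ) + 2 - 2 * ((i : ℕ) + 1)) ^ 2 * pV (univ.image p) i
      = s * tau s d - (d + 2) * (s.choose (d + 2) : ℝ) := by
  set α : ℕ → ℝ := fun j => ((s : ℝ) - 2 * j) ^ 2 with hα
  set β : ℕ → ℝ := fun j => -((d : ℝ) + 2 - 2 * j) ^ 2 with hβ
  have hsα : Symm s α := by
    intro j hj
    simp only [hα]
    rw [Nat.cast_sub hj]
    ring
  have hsβ : Symm (d + 2) β := by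
    intro j hj
    simp only [hβ]
    rw [Nat.cast_sub hj]
    push_cast
    ring
  have hb : Balanced s d α β := by
    intro a k _ _ hk
    simp only [hα, hβ]
    have : ((s - d - 1 - k : ℕ) : ℝ) = (s : ℝ) - d - 1 - k := by
      rw [Nat.cast_sub (by omega), Nat.cast_sub (by omega), Nat.cast_sub (by omega)]
      push_cast
      ring
    push_cast
    rw [this]
    ring
  have h := Phi_fun2 hd hs hp hsα hsβ
  have h2 := inv hd hs hsα hsβ hb hp (gen_mom s d)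
  have h3 : Phi α β (lift (mom s d)) =
      2 * (s * tau s d - (d + 2) * (s.choose (d + 2) : ℝ)) := by
    rw [← (cnt_mom hd (by omega)).2.2]
    unfold Phi
    simp only [hα, hβ, Finset.sum_neg_distrib]
    ring
  rw [h2, h3] at h
  unfold fun2 at h
  simp only [hα, hβ, neg_mul, Finset.sum_neg_distrib, Nat.cast_add, Nat.cast_one] at h
  linarith

theorem rel_N1 (hd : 1 ≤ d) (hs : s = d + 2) {p : Fin s → Pt d} (hp : Gen (lift p)) {j : ℕ}
    (hj : j ≤ s) :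
    ordered s (rV s (univ.image p)) j = ordered (d + 2) (pV (univ.image p)) j := by
  rw [ord_r hd hs.ge hp hj, ord_p hd hs.ge hp (by omega)]
  unfold PN RN
  have : powersetCard (d + 2) (univ : Finset (Fin s)) = {univ} := by
    have h := Finset.powersetCard_self (univ : Finset (Fin s))
    rw [Finset.card_univ, Fintype.card_fin] at h
    rw [← hs]; exact h
  rw [this, Finset.sum_singleton]

theorem relations_of_gen (hd : 1 ≤ d) (hs : d + 2 ≤ s) {p : Fin s → Pt d} (hp : Gen (lift p)) :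
    Relations s d (rV s (univ.image p)) (pV (univ.image p)) := by
  refine ⟨rel_sumP hd hs hp, ?_, ?_, ?_, ?_⟩
  · rintro rfl j hj hjs
    rw [ord_r hd hs hp hjs.le]
    exact Pool.Agent.Run7.h416.RV.one s p hp j hj hjs
  · intro h j _ hjs
    exact rel_N1 hd h hp hjs.le
  · intro h j hj hjs
    rw [ord_r hd hs hp hjs.le, ord_p hd hs hp (by omega), ord_p hd hs hp (by omega)]
    have := Pool.Agent.Run7.h639.RV.p_TWO p_GORD s d (lift p) h hp j hj
    exact_mod_cast this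
  · intro _
    exact ⟨rel_sumR hd hs hp, rel_quad hd hs hp, fun h1 h2 => rel_alt hd hs h1 h2 hp⟩

end

end Pool.Agent.Run7.h62.RV
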