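import Pool.Agent.Run7.h62.RV.Fin2

/-! Assembly of MP_620441_co (helper62), part 3. -/

namespace Pool.Agent.Run7.h62.RV

open Finset Filter Topology

noncomputable section

open scoped Classical

variable {s d : ℕ}

theorem sum_comb {l : ℕ} (c : ℝ) (g x y z : Fin l → ℝ) :
    ∑ i, g i * (c • (x - y) + z) i = c * (∑ i, g i * x i - ∑ i, g i * y i) + ∑ i, g i * z i := by
  rw [← Finset.sum_sub_distrib, Finset.mul_sum, ← Finset.sum_add_distrib]
  apply Finset.sum_congr rfl
  intro i _
  simp only [Pi.add_apply, Pi.smul_apply, Pi.sub_apply, smul_eq_mul]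
  ring

theorem sum_comb' {l : ℕ} (c : ℝ) (x y z : Fin l → ℝ) :
    ∑ i, (c • (x - y) + z) i = c * (∑ i, x i - ∑ i, y i) + ∑ i, z i := by
  have := sum_comb c (fun _ => (1 : ℝ)) x y z
  simpa only [one_mul] using this

theorem relations_comb (c : ℝ) {r1 r2 r3 : Fin (s / 2) → ℝ} {P1 P2 P3 : Fin (d / 2 + 1) → ℝ}
    (h1 : Relations s d r1 P1) (h2 : Relations s d r2 P2) (h3 : Relations s d r3 P3) :
    Relations s d (c • (r1 - r2) + r3) (c • (P1 - P2) + P3) := by
  refine ⟨?_, ?_, ?_, ?_, ?_⟩
  · rw [sum_comb', h1.1, h2.1, h3.1]; ring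
  · intro hd j hj hjs
    rw [ordered_comb, h1.2.1 hd j hj hjs, h2.2.1 hd j hj hjs, h3.2.1 hd j hj hjs]; ring
  · intro hd j hj hjs
    rw [ordered_comb, ordered_comb, h1.2.2.1 hd j hj hjs, h2.2.2.1 hd j hj hjs,
      h3.2.2.1 hd j hj hjs]
  · intro hd j hj hjs
    rw [ordered_comb, ordered_comb, ordered_comb]
    have e1 := h1.2.2.2.1 hd j hj hjs
    have e2 := h2.2.2.2.1 hd j hj hjs
    have e3 := h3.2.2.2.1 hd j hj hjs
    linear_combination c * (e1 - e2) + e3
  · intro hd
    obtain ⟨a1, b1, c1⟩ := h1.2.2.2.2 hd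
    obtain ⟨a2, b2, c2⟩ := h2.2.2.2.2 hd
    obtain ⟨a3, b3, c3⟩ := h3.2.2.2.2 hd
    refine ⟨?_, ?_, ?_⟩
    · rw [sum_comb', a1, a2, a3]; ring
    · rw [sum_comb c (fun i : Fin (s / 2) => ((s : ℝ) - 2 * ((i : ℕ) + 1)) ^ 2),
        sum_comb c (fun i : Fin (d / 2 + 1) => ((d : ℝ) + 2 - 2 * ((i : ℕ) + 1)) ^ 2)]
      linear_combination c * (b1 - b2) + b3
    · intro he ho
      rw [sum_comb c (fun i : Fin (s / 2) => (-1 : ℝ) ^ ((i : ℕ) + 1)), c1 he ho, c2 he ho, c3 he ho]
      ring

theorem affineSpan_subset (hd : 1 ≤ d) (hs : d + 2 ≤ s) :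
    (affineSpan ℝ (VV s d) : Set ((Fin (s / 2) → ℝ) × (Fin (d / 2 + 1) → ℝ)))
      ⊆ {x | Relations s d x.1 x.2} := by
  intro x hx
  refine affineSpan_induction (p := fun x => Relations s d x.1 x.2) hx ?_ ?_
  · intro y hy
    obtain ⟨p, hp, rfl⟩ := exists_of_mem_VV hd hs hy
    exact relations_of_gen hd hs hp
  · intro c u v w hu hv hw
    exact relations_comb c hu hv hw

/-- A linear functional in coordinates. -/
theorem functional_eq (φ : ((Fin (s / 2) → ℝ) × (Fin (d / 2 + 1) → ℝ)) →ₗ[ℝ] ℝ)
    (y : (Fin (s / 2) → ℝ) × (Fin (d / 2 + 1) → ℝ)) :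
    φ y = fun2 s d (symm s (fun i : Fin (s / 2) => φ (Pi.single i 1, 0)))
      (symm (d + 2) (fun i : Fin (d / 2 + 1) => φ (0, Pi.single i 1))) y.1 y.2 := by
  have h1 : φ y = φ (y.1, 0) + φ (0, y.2) := by
    rw [← map_add]; simp
  have h2 : φ (y.1, 0) = ∑ i, φ (Pi.single i 1, 0) * y.1 i := by
    have := LinearMap.pi_apply_eq_sum_univ (φ.comp (LinearMap.inl ℝ _ _)) y.1
    simp only [LinearMap.comp_apply, LinearMap.inl_apply] at this
    rw [this]
    apply Finset.sum_congr rfl
    intro i _
    rw [smul_eq_mul, mul_comm]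
    congr 3
    funext j
    simp [Pi.single_apply, eq_comm]
  have h3 : φ (0, y.2) = ∑ i, φ (0, Pi.single i 1) * y.2 i := by
    have := LinearMap.pi_apply_eq_sum_univ (φ.comp (LinearMap.inr ℝ _ _)) y.2
    simp only [LinearMap.comp_apply, LinearMap.inr_apply] at this
    rw [this]
    apply Finset.sum_congr rfl
    intro i _
    rw [smul_eq_mul, mul_comm]
    congr 3
    funext j
    simp [Pi.single_apply, eq_comm]
  rw [h1, h2, h3]
  unfold fun2
  congr 1
  · apply Finset.sum_congr rfl
    intro i _
    rw [symm_succ rfl]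
  · apply Finset.sum_congr rfl
    intro i _
    rw [symm_succ (half_eq d)]

/-- A functional which is constant on `VV` has balanced weights. -/
theorem balanced_of_const (hd : 1 ≤ d) (hs : d + 2 ≤ s) {α β : ℕ → ℝ} (hα : Symm s α)
    (hβ : Symm (d + 2) β)
    (h : ∀ x ∈ VV s d, ∀ y ∈ VV s d, fun2 s d α β x.1 x.2 = fun2 s d α β y.1 y.2) :
    Balanced s d α β := by
  intro a k ha had hk
  obtain ⟨p, p', hp, hp', hpp⟩ := Pool.Agent.Run7.h639.RV.p_REAL p_LOC p_GORD s d a k α β ha had hs hk
  rw [Phi_fun2 hd hs hp hα hβ, Phi_fun2 hd hs hp' hα hβ,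
    h _ (mem_VV_of_gen hd hs hp) _ (mem_VV_of_gen hd hs hp'), sub_self] at hpp
  unfold Jump at hpp
  have e1 : β (d + 1 - a) = β (a + 1) := by
    have := hβ (a + 1) (by omega)
    rw [← this]; congr 1; omega
  have e2 : β (d + 2 - a) = β a := hβ a (by omega)
  have e3 : α (s - (a + (s - d - 1 - k))) = α (a + (s - d - 1 - k)) := hα _ (by omega)
  have e5 : s - d - 1 - (s - d - 1 - k) = k := by omega
  have e4 : α (s - (a + k)) = α (a + k) := hα _ (by omega)
  rw [e5, e1, e2, e3, e4] at hpp
  have e6 : ((s - d - 1 - k : ℕ) : ℝ) = (s : ℝ) - d - 1 - k := by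
    rw [Nat.cast_sub (by omega), Nat.cast_sub (by omega), Nat.cast_sub (by omega)]
    push_cast
    ring
  rw [e6] at hpp
  linear_combination (1 / 2) * hpp

/-- Balanced functionals are determined by the relations. -/
theorem fun2_const_of_relations (hd : 1 ≤ d) (hs : d + 2 ≤ s) {α β : ℕ → ℝ} (hα : Symm s α)
    (hβ : Symm (d + 2) β) (hb : Balanced s d α β) {r1 r2 : Fin (s / 2) → ℝ}
    {P1 P2 : Fin (d / 2 + 1) → ℝ} (h1 : Relations s d r1 P1) (h2 : Relations s d r2 P2) :
    fun2 s d α β r1 P1 = fun2 s d α β r2 P2 := by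
  have hsum : ∀ P : Fin (d / 2 + 1) → ℝ, ∑ j ∈ Ico 1 (d + 2), ordered (d + 2) P j = 2 * ∑ i, P i := by
    intro P
    have := Pool.Agent.Run7.h416.RV.fold (d + 2) _ P (fun _ => 1) (half_eq d) (symm_const _ 1)
    simpa only [one_mul] using this
  rcases Nat.lt_or_ge d 2 with hd2 | hd2
  · -- `d = 1`
    obtain rfl : d = 1 := by omega
    have hr : r1 = r2 := by
      funext i
      have hi := i.2
      have e := (h1.2.1 rfl ((i : ℕ) + 1) (by omega) (by omega)).trans
        (h2.2.1 rfl ((i : ℕ) + 1) (by omega) (by omega)).symm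
      unfold ordered at e
      rw [symm_succ rfl, symm_succ rfl] at e
      have : (if 2 * ((i : ℕ) + 1) = s then (2 : ℝ) else 1) ≠ 0 := by split_ifs <;> norm_num
      exact mul_left_cancel₀ this e
    have hP : P1 = P2 := by
      have e := h1.1.trans h2.1.symm
      funext i
      have hsub : ∀ P : Fin (1 / 2 + 1) → ℝ, ∑ i, P i = P 0 := by
        intro P
        exact Fin.sum_univ_one P
      rw [hsub, hsub] at e
      have hi : i = 0 := by
        apply Fin.ext
        have := i.2
        simp only [Fin.val_zero]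
        omega
      rw [hi]; exact e
    rw [hr, hP]
  · rcases Nat.lt_or_ge s (d + 4) with hs4 | hs4
    · -- `s = d + 2` or `s = d + 3`
      rcases (by omega : s = d + 2 ∨ s = d + 3) with h | h
      · have key : ∀ (r : Fin (s / 2) → ℝ) (P : Fin (d / 2 + 1) → ℝ), Relations s d r P →
            2 * fun2 s d α β r P = (α 1 + β 1) * (2 * (s.choose (d + 2) : ℝ)) := by
          intro r P hrel
          rw [fun2_eq r P hα hβ, ← hrel.1, ← hsum, Finset.mul_sum]
          have hIco : Ico 1 s = Ico 1 (d + 2) := by rw [h]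
          rw [hIco, ← Finset.sum_add_distrib]
          apply Finset.sum_congr rfl
          intro j hj
          rw [Finset.mem_Ico] at hj
          rw [hrel.2.2.1 h j hj.1 (by omega)]
          have hc : ∀ j, 1 ≤ j → j < d + 2 → α j + β j = α 1 + β 1 := by
            intro j hj
            induction j, hj using Nat.le_induction with
            | base => intro _; rfl
            | succ j hj ih =>
              intro hj2
              rw [← ih (by omega)]
              have e := hb j 0 hj (by omega) (by omega)
              have e1 : s - d - 1 - 0 = 1 := by omega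
              have e2 : (s : ℝ) = d + 2 := by rw [h]; push_cast; ring
              rw [e1, e2, add_zero] at e
              push_cast at e
              linear_combination e
          rw [← hc j hj.1 hj.2]
          ring
        have k1 := key r1 P1 h1
        have k2 := key r2 P2 h2
        linarith
      · have key : ∀ (r : Fin (s / 2) → ℝ) (P : Fin (d / 2 + 1) → ℝ), Relations s d r P →
            2 * fun2 s d α β r P =
              ((α 1 + α 2) / 2 + β 1) * (2 * (s.choose (d + 2) : ℝ)) := by
          intro r P hrel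
          have hc : ∀ j, 1 ≤ j → j < d + 2 → (α j + α (j + 1)) / 2 + β j =
              (α 1 + α 2) / 2 + β 1 := by
            intro j hj
            induction j, hj using Nat.le_induction with
            | base => intro _; rfl
            | succ j hj ih =>
              intro hj2
              rw [← ih (by omega)]
              have e := hb j 0 hj (by omega) (by omega)
              have e1 : s - d - 1 - 0 = 2 := by omega
              have e2 : (s : ℝ) = d + 3 := by rw [h]; push_cast; ring
              rw [e1, e2, add_zero] at e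
              push_cast at e
              have e3 : j + 1 + 1 = j + 2 := rfl
              rw [e3]
              linear_combination (1 / 2) * e
          rw [fun2_eq r P hα hβ, ← hrel.1, ← hsum, Finset.mul_sum]
          have e1 : ∑ j ∈ Ico 1 s, α j * ordered s r j =
              ∑ j ∈ Ico 1 (d + 2), ((α j + α (j + 1)) / 2) * ordered (d + 2) P j := by
            have e2 : ∀ j ∈ Ico 1 s, α j * ordered s r j =
                α j / 2 * ordered (d + 2) P j + α j / 2 * ordered (d + 2) P (j - 1) := by
              intro j hj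
              rw [Finset.mem_Ico] at hj
              have := hrel.2.2.2.1 h j hj.1 hj.2
              linear_combination (α j / 2) * this
            rw [Finset.sum_congr rfl e2, Finset.sum_add_distrib]
            have e3 : ∑ j ∈ Ico 1 s, α j / 2 * ordered (d + 2) P j =
                ∑ j ∈ Ico 1 (d + 2), α j / 2 * ordered (d + 2) P j := by
              have : s = (d + 2) + 1 := by omega
              rw [this, Finset.sum_Ico_succ_top (by omega), ordered_self, mul_zero, add_zero]
            have e4 : ∑ j ∈ Ico 1 s, α j / 2 * ordered (d + 2) P (j - 1) =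
                ∑ j ∈ Ico 1 (d + 2), α (j + 1) / 2 * ordered (d + 2) P j := by
              have hs' : s = (d + 2) + 1 := by omega
              rw [hs']
              rw [← Finset.sum_Ico_add' (fun j => α j / 2 * ordered (d + 2) P (j - 1)) 0 (d + 2) 1]
              rw [Finset.sum_eq_sum_Ico_succ_bot (by omega)]
              simp only [Nat.add_sub_cancel, Nat.sub_self, ordered_zero, mul_zero, zero_add]
            rw [e3, e4, ← Finset.sum_add_distrib]
            apply Finset.sum_congr rfl
            intro j _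
            ring
          rw [e1, ← Finset.sum_add_distrib]
          apply Finset.sum_congr rfl
          intro j hj
          rw [Finset.mem_Ico] at hj
          rw [← hc j hj.1 hj.2]
          ring
        have k1 := key r1 P1 h1
        have k2 := key r2 P2 h2
        linarith
    · -- the general case
      obtain ⟨u, u', b, v, hβ', hα', hu'⟩ := Pool.Agent.Run7.h416.RV.ann s d α β hd2 hs4 hα hβ hb
      have key : ∀ (r : Fin (s / 2) → ℝ) (P : Fin (d / 2 + 1) → ℝ), Relations s d r P →
          fun2 s d α β r P = u * tau s d - v * (s * tau s d - (d + 2) * (s.choose (d + 2) : ℝ))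
            + b * (s.choose (d + 2) : ℝ) := by
        intro r P hrel
        obtain ⟨g1, g2, g3⟩ := hrel.2.2.2.2 hs4
        have f1 : ∑ i : Fin (s / 2), α ((i : ℕ) + 1) * r i = u * ∑ i, r i
            + u' * ∑ i : Fin (s / 2), (-1 : ℝ) ^ ((i : ℕ) + 1) * r i
            - v * ∑ i : Fin (s / 2), ((s : ℝ) - 2 * ((i : ℕ) + 1)) ^ 2 * r i := by
          rw [Finset.mul_sum, Finset.mul_sum, Finset.mul_sum, ← Finset.sum_add_distrib,
            ← Finset.sum_sub_distrib]
          apply Finset.sum_congr rfl
          intro i _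
          have hi := i.2
          rw [hα' ((i : ℕ) + 1) (by omega) (by omega)]
          push_cast
          ring
        have f2 : ∑ i : Fin (d / 2 + 1), β ((i : ℕ) + 1) * P i = b * ∑ i, P i
            + v * ∑ i : Fin (d / 2 + 1), ((d : ℝ) + 2 - 2 * ((i : ℕ) + 1)) ^ 2 * P i := by
          rw [Finset.mul_sum, Finset.mul_sum, ← Finset.sum_add_distrib]
          apply Finset.sum_congr rfl
          intro i _
          have hi := i.2
          rw [hβ' ((i : ℕ) + 1) (by omega) (by omega)]
          push_cast
          ring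
        have f3 : u' * ∑ i : Fin (s / 2), (-1 : ℝ) ^ ((i : ℕ) + 1) * r i = 0 := by
          by_cases hu : u' = 0
          · rw [hu, zero_mul]
          · rw [g3 (hu' hu).1 (hu' hu).2, mul_zero]
        unfold fun2
        rw [f1, f2, f3, g1, hrel.1]
        linear_combination (-v) * g2
      rw [key r1 P1 h1, key r2 P2 h2]

theorem p_FINAL : S_FINAL := by
  intro d s hd hs
  apply Set.Subset.antisymm (affineSpan_subset hd hs)
  intro x hx
  rw [Set.mem_ofPred_eq] at hx
  by_contra hxn
  have hp0 := gen_mom s d
  set x0 := (rV s (univ.image (mom s d)), pV (univ.image (mom s d))) with hx0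
  have hx0V : x0 ∈ VV s d := mem_VV_of_gen hd hs hp0
  have hx0S : x0 ∈ affineSpan ℝ (VV s d) := mem_affineSpan ℝ hx0V
  have hnd : x - x0 ∉ (affineSpan ℝ (VV s d)).direction := by
    intro h
    apply hxn
    have := AffineSubspace.vadd_mem_of_mem_direction h hx0S
    simpa using this
  obtain ⟨φ, hφ, hφD⟩ := Submodule.exists_dual_map_eq_bot_of_notMem hnd inferInstance
  set α := symm s (fun i : Fin (s / 2) => φ (Pi.single i 1, 0)) with hα
  set β := symm (d + 2) (fun i : Fin (d / 2 + 1) => φ (0, Pi.single i 1)) with hβ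
  have hconst : ∀ y ∈ VV s d, ∀ z ∈ VV s d, fun2 s d α β y.1 y.2 = fun2 s d α β z.1 z.2 := by
    intro y hy z hz
    have h1 : y - z ∈ (affineSpan ℝ (VV s d)).direction :=
      AffineSubspace.vsub_mem_direction (mem_affineSpan ℝ hy) (mem_affineSpan ℝ hz)
    have h2 : φ (y - z) = 0 := by
      have : φ (y - z) ∈ Submodule.map φ (affineSpan ℝ (VV s d)).direction :=
        Submodule.mem_map_of_mem h1
      rw [hφD] at this
      simpa using this
    rw [map_sub, sub_eq_zero, functional_eq φ y, functional_eq φ z] at h2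
    exact h2
  have hb := balanced_of_const hd hs (symm_Symm _) (symm_Symm _) hconst
  have hfin := fun2_const_of_relations hd hs (symm_Symm _) (symm_Symm _) hb hx
    (relations_of_gen hd hs hp0)
  apply hφ
  rw [map_sub, sub_eq_zero, functional_eq φ x, functional_eq φ x0]
  exact hfin

end

end Pool.Agent.Run7.h62.RV

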