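import Mathlib

/-!
# MP_620441_co: linear relations among Radon and primitive Radon vectors (project of helper62)

Interface file: definitions and exact statements `S_XX` of the pieces, with proofs in the doc
strings.
-/

namespace Pool.Agent.Run7.h62.RV

open Finset Filter Topology

noncomputable section

open scoped Classical

/-! ## Part 1: the definitions of the final statement -/

/-- Points of `ℝ^d`. -/
abbrev Pt (d : ℕ) := EuclideanSpace ℝ (Fin d)

/-- No `d + 1` points of `S` lie on an affine hyperplane `{x | ⟪a, x⟫ = b}`, `a ≠ 0`. -/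
def GeneralPosition {d : ℕ} (S : Finset (Pt d)) : Prop :=
  ∀ T ⊆ S, T.card = d + 1 → ∀ (a : Pt d) (b : ℝ), a ≠ 0 → ¬ ∀ x ∈ T, inner ℝ a x = b

/-- Two disjoint nonempty sets whose convex hulls meet. -/
def RadonPair {d : ℕ} (T₁ T₂ : Finset (Pt d)) : Prop :=
  T₁.Nonempty ∧ T₂.Nonempty ∧ Disjoint T₁ T₂ ∧
    (convexHull ℝ (T₁ : Set (Pt d)) ∩ convexHull ℝ (T₂ : Set (Pt d))).Nonempty

/-- The Radon partitions `{T₁, T₂}` of `S` of type `{i, |S| - i}` (unordered). -/
def radonPartitions {d : ℕ} (S : Finset (Pt d)) (i : ℕ) : Set (Finset (Finset (Pt d))) :=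
  {π | ∃ T₁ T₂ : Finset (Pt d), π = {T₁, T₂} ∧ T₁ ∪ T₂ = S ∧ RadonPair T₁ T₂ ∧
    T₁.card = i ∧ T₂.card = S.card - i}

/-- The primitive Radon partitions `{T₁, T₂}` in `S` of type `{i, d + 2 - i}` (unordered). -/
def primitivePartitions {d : ℕ} (S : Finset (Pt d)) (i : ℕ) : Set (Finset (Finset (Pt d))) :=
  {π | ∃ T₁ T₂ : Finset (Pt d), π = {T₁, T₂} ∧ T₁ ⊆ S ∧ T₂ ⊆ S ∧ RadonPair T₁ T₂ ∧
    (∀ T₁' T₂' : Finset (Pt d), T₁' ⊆ T₁ → T₂' ⊆ T₂ → RadonPair T₁' T₂' →
      ({T₁', T₂'} : Finset (Finset (Pt d))) = {T₁, T₂}) ∧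
    T₁.card = i ∧ T₂.card = d + 2 - i}

/-- `r_i(S)`. -/
def radonNumber {d : ℕ} (S : Finset (Pt d)) (i : ℕ) : ℕ := (radonPartitions S i).ncard

/-- `P_i(S)`. -/
def primitiveNumber {d : ℕ} (S : Finset (Pt d)) (i : ℕ) : ℕ := (primitivePartitions S i).ncard

/-- The set `V(s, d)` of the vectors `(r(S), P(S))`; the entry of index `i` (from `0`) is
`r_{i+1}`, resp. `P_{i+1}`. -/
def VV (s d : ℕ) : Set ((Fin (s / 2) → ℝ) × (Fin (d / 2 + 1) → ℝ)) :=
  {x | ∃ S : Finset (Pt d), S.card = s ∧ GeneralPosition S ∧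
    x = (fun i : Fin (s / 2) => (radonNumber S ((i : ℕ) + 1) : ℝ),
      fun i : Fin (d / 2 + 1) => (primitiveNumber S ((i : ℕ) + 1) : ℝ))}

/-- For a vector `x = (x_1, …, x_l)` indexed by the types `{j, m - j}`: the entry
`x_{min (j, m - j)}` (and `0` if there is none). -/
def symm (m : ℕ) {l : ℕ} (x : Fin l → ℝ) (j : ℕ) : ℝ :=
  if h : 0 < min j (m - j) ∧ min j (m - j) - 1 < l then x ⟨min j (m - j) - 1, h.2⟩ else 0

/-- The corresponding number of ordered pairs `(T₁, T₂)` with `|T₁| = j`, `|T₂| = m - j`: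
an unordered pair of type `{m/2, m/2}` counts twice. -/
def ordered (m : ℕ) {l : ℕ} (x : Fin l → ℝ) (j : ℕ) : ℝ :=
  (if 2 * j = m then 2 else 1) * symm m x j

/-- `τ = 2^{s-1} - ∑_{k ≤ d} C(s-1, k)`, the number of Radon partitions. -/
def tau (s d : ℕ) : ℝ := 2 ^ (s - 1) - ∑ k ∈ range (d + 1), ((s - 1).choose k : ℝ)

/-- The explicit linear system. -/
def Relations (s d : ℕ) (r : Fin (s / 2) → ℝ) (P : Fin (d / 2 + 1) → ℝ) : Prop :=
  (∑ i, P i = (s.choose (d + 2) : ℝ)) ∧
  (d = 1 → ∀ j, 1 ≤ j → j < s → ordered s r j = (s.choose j : ℝ) - 2) ∧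
  (s = d + 2 → ∀ j, 1 ≤ j → j < s → ordered s r j = ordered (d + 2) P j) ∧
  (s = d + 3 → ∀ j, 1 ≤ j → j < s →
    2 * ordered s r j = ordered (d + 2) P j + ordered (d + 2) P (j - 1)) ∧
  (d + 4 ≤ s →
    (∑ i, r i = tau s d) ∧
    (∑ i : Fin (s / 2), ((s : ℝ) - 2 * ((i : ℕ) + 1)) ^ 2 * r i
      - ∑ i : Fin (d / 2 + 1), ((d : ℝ) + 2 - 2 * ((i : ℕ) + 1)) ^ 2 * P i
      = s * tau s d - (d + 2) * (s.choose (d + 2) : ℝ)) ∧
    (Even s → Odd d → ∑ i : Fin (s / 2), (-1 : ℝ) ^ ((i : ℕ) + 1) * r i = 0))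

/-- The final theorem. -/
def S_FINAL : Prop := ∀ d s : ℕ, 1 ≤ d → d + 2 ≤ s →
  (affineSpan ℝ (VV s d) : Set ((Fin (s / 2) → ℝ) × (Fin (d / 2 + 1) → ℝ)))
    = {x | Relations s d x.1 x.2}

/-! ## Part 2: separability of sign patterns -/

/-- The vector space `ℝ × ℝ^d` of dimension `d + 1`. -/
abbrev VS (d : ℕ) := ℝ × Pt d

/-- The vectors `(1, p i)`. -/
def lift {s d : ℕ} (p : Fin s → Pt d) : Fin s → VS d := fun i => (1, p i)

/-- The sign pattern of a subset. -/
def sgn {s : ℕ} (T : Finset (Fin s)) (i : Fin s) : ℝ := if i ∈ T then 1 else -1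

/-- The pattern `T` is separable on `J`. -/
def Sep {s d : ℕ} (v : Fin s → VS d) (J T : Finset (Fin s)) : Prop :=
  ∃ f : VS d →ₗ[ℝ] ℝ, ∀ j ∈ J, 0 < sgn T j * f (v j)

/-- The nonseparable patterns on `J` (ordered Radon partitions of `J`). -/
def NS {s d : ℕ} (v : Fin s → VS d) (J : Finset (Fin s)) : Finset (Finset (Fin s)) :=
  J.powerset.filter (fun T => ¬ Sep v J T)

/-- The number of ordered Radon partitions with `|T₁| = j`. -/
def RN {s d : ℕ} (v : Fin s → VS d) (j : ℕ) : ℕ := ((NS v univ).filter (fun T => T.card = j)).card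

/-- The number of ordered primitive Radon partitions with `|T₁| = j`. -/
def PN {s d : ℕ} (v : Fin s → VS d) (j : ℕ) : ℕ :=
  ∑ J ∈ powersetCard (d + 2) (univ : Finset (Fin s)), ((NS v J).filter (fun T => T.card = j)).card

/-- The general linear functional of `(r, P)` (twice, in ordered form). -/
def Phi {s d : ℕ} (α β : ℕ → ℝ) (v : Fin s → VS d) : ℝ :=
  ∑ T ∈ NS v univ, α T.card
    + ∑ J ∈ powersetCard (d + 2) (univ : Finset (Fin s)), ∑ T ∈ NS v J, β T.card

/-- Linear general position. -/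
def Gen {s d : ℕ} (v : Fin s → VS d) : Prop :=
  ∀ A : Finset (Fin s), A.card ≤ d + 1 → LinearIndependent ℝ (fun i : A => v i)

/-- Simply degenerate: `B` is the only dependent set of at most `d + 1` vectors, `|B| = d+1`. -/
def SD {s d : ℕ} (v : Fin s → VS d) (B : Finset (Fin s)) : Prop :=
  B.card = d + 1 ∧ ¬ LinearIndependent ℝ (fun i : B => v i) ∧
    ∀ A : Finset (Fin s), A.card ≤ d + 1 → A ≠ B → LinearIndependent ℝ (fun i : A => v i)

/-- The local data at a simply degenerate configuration: `L` is the positive part of the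
dependency of `B`, `E` the set of the vectors on the positive side of the hyperplane. -/
def Data {s d : ℕ} (v : Fin s → VS d) (B L E : Finset (Fin s)) : Prop :=
  L ⊆ B ∧ E ⊆ Bᶜ ∧
  (∃ x : Fin s → ℝ, (∀ b ∈ B, 0 < sgn L b * x b) ∧ (∀ j ∉ B, x j = 0) ∧ ∑ j, x j • v j = 0) ∧
  (∃ f : VS d →ₗ[ℝ] ℝ, (∀ b ∈ B, f (v b) = 0) ∧ (∀ q ∉ B, 0 < sgn E q * f (v q)))

/-- Near a simply degenerate configuration: the circuits on `B ∪ {q}`. -/
def IsType {s d : ℕ} (w : Fin s → VS d) (B L E : Finset (Fin s)) : Prop :=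
  ∀ q ∉ B, L ∪ (E ∩ {q}) ∈ NS w (insert q B)

/-- The contribution to `Phi` of the circuits and patterns which change. `a = |L|`, `N = s-d-1`,
`e = |E|`. -/
def Jump (α β : ℕ → ℝ) (s d a e : ℕ) : ℝ :=
  (e : ℝ) * (β (a + 1) + β (d + 1 - a)) + ((s - d - 1 - e : ℕ) : ℝ) * (β a + β (d + 2 - a))
    - α (a + (s - d - 1 - e)) - α (s - (a + (s - d - 1 - e)))

/-! ## Part 3: the pieces -/

/-- **GORD** (helper62). Gordan's theorem. -/
def S_GORD : Prop := ∀ (s d : ℕ) (v : Fin s → VS d) (J T : Finset (Fin s)),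
  ¬ Sep v J T ↔ ∃ x : Fin s → ℝ, x ≠ 0 ∧ (∀ j ∉ J, x j = 0) ∧ (∀ j, 0 ≤ sgn T j * x j) ∧
    ∑ j, x j • v j = 0

/-- **HELL** (helper62). Helly's theorem. -/
def S_HELL : Prop := ∀ (s d : ℕ) (v : Fin s → VS d) (J T : Finset (Fin s)), d + 2 ≤ J.card →
  (∀ J' ⊆ J, J'.card = d + 2 → Sep v J' T) → Sep v J T

/-- **CIRC** (helper62). On `d + 2` vectors in general position there are exactly two
nonseparable patterns, given by the signs of the dependency. -/
def S_CIRC : Prop := ∀ (s d : ℕ) (v : Fin s → VS d) (J : Finset (Fin s)), J.card = d + 2 →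
  (∀ A ⊆ J, A.card ≤ d + 1 → LinearIndependent ℝ (fun i : A => v i)) →
  ∃ x : Fin s → ℝ, (∀ j ∈ J, x j ≠ 0) ∧ (∀ j ∉ J, x j = 0) ∧ ∑ j, x j • v j = 0 ∧
    (∀ y : Fin s → ℝ, (∀ j ∉ J, y j = 0) → ∑ j, y j • v j = 0 → ∃ c : ℝ, y = c • x) ∧
    NS v J = {J.filter (fun j => 0 < x j), J.filter (fun j => x j < 0)}

/-- **LOC** (helper62). The local lemma at a simply degenerate configuration. -/
def S_LOC : Prop := ∀ (s d : ℕ) (v : Fin s → VS d) (B L E : Finset (Fin s)), d + 2 ≤ s →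
  SD v B → Data v B L E → ∀ α β : ℕ → ℝ, ∃ c : ℝ, ∀ᶠ w in 𝓝 v, Gen w →
    (IsType w B L E ∧ Phi α β w = c + Jump α β s d L.card E.card) ∨
    (IsType w B L (Bᶜ \ E) ∧ Phi α β w = c + Jump α β s d L.card (Bᶜ \ E).card)

/-- **LOCG** (helper62). `Phi` and `Gen` are locally constant at general positions. -/
def S_LOCG : Prop := ∀ (s d : ℕ) (v : Fin s → VS d), d + 2 ≤ s → Gen v → ∀ α β : ℕ → ℝ,
  ∀ᶠ w in 𝓝 v, Gen w ∧ Phi α β w = Phi α β v

/-- **DATA** (helper62). Existence of the local data. -/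
def S_DATA : Prop := ∀ (s d : ℕ) (v : Fin s → VS d) (B : Finset (Fin s)), d + 2 ≤ s →
  SD v B → ∃ L E : Finset (Fin s), Data v B L E

/-- Symmetric weights. -/
def Symm (m : ℕ) (g : ℕ → ℝ) : Prop := ∀ j ≤ m, g (m - j) = g j

/-- The functional equation of the pairs of weights which are constant on `V(s, d)`
(`k` vectors on one side, `s - d - 1 - k` on the other side). -/
def Balanced (s d : ℕ) (α β : ℕ → ℝ) : Prop := ∀ a k : ℕ, 1 ≤ a → a ≤ d → k + d + 1 ≤ s →
  α (a + (s - d - 1 - k)) - α (a + k) = -((s : ℝ) - d - 1 - 2 * k) * (β (a + 1) - β a)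

/-- **INV**. Invariance of `Phi` for balanced weights (path argument). You may use `S_LOC`,
`S_LOCG`, `S_DATA` (proved by helper62).

Write `n = d + 1`, `v i = (1, p i) ∈ VS d`, `finrank (VS d) = d + 1`.

(1) *Jump vanishes.* Let `w : Fin s → Pt d`, `SD (lift w) B`. By `S_DATA` take `Data (lift w) B L E`.
The dependency `x` on `B` satisfies `∑ x_b = 0` (first coordinate) and all `x_b ≠ 0`
(`b ∈ B`, `B` nonempty), so it has positive and negative entries: `1 ≤ |L| ≤ d`. By `Symm` and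
`Balanced` (with `a = |L|`, `k = |E|`, `|Bᶜ \ E| = s - d - 1 - |E|`),
`Jump α β s d |L| |E| = Jump α β s d |L| |Bᶜ \ E|`:
`Jump(e) = 2 e β(a+1) + 2 (N-e) β(a) - 2 α(a+N-e)`, `N = s-d-1`, because
`β(d+1-a) = β(a+1)`, `β(d+2-a) = β(a)`, `α(s-j) = α(j)`. Hence by `S_LOC`: there is `c'` with
`∀ᶠ w' in 𝓝 (lift w), Gen w' → Phi α β w' = c'`.

(2) *Avoidance.* If `D` is a finite set of nonzero linear functionals on `VS d` and `U` is an open
nonempty set of points of `Pt d`, then there is `y ∈ U` with `D_k (1, y) ≠ 0` for all `k`.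
(Each set `{y | D_k (1, y) ≠ 0}` is open; it is dense: it contains some `y₁`, as
the vectors `(1, y)` span `VS d`, and `t ↦ D_k (1, y₀ + t (y₁ - y₀))` is affine in `t` and nonzero
at `t = 1`, so it has at most one zero. Finite intersections of open dense sets are dense.)

(3) *Functionals.* Let `Gen (lift p)`. For every `I` with `|I| = d` the vectors
`v i, i ∈ I` are independent, so their span has dimension `d`; choose a nonzero functional
`D_I` vanishing on them; its kernel has dimension `d`, so `ker D_I = span`. Hence for every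
vector `w`: if `D_I w ≠ 0` then `v|_I` together with `w` is independent, and conversely. If
`I ≠ I'` are two `d`-subsets of `{i | i ≠ m}` then `D_I`, `D_{I'}` are not proportional: otherwise
`D_I` vanishes on the `≥ d + 1` vectors of `I ∪ I'`, which span (`Gen`).

(4) *One step.* Let `Gen (lift p)`, `m : Fin s`, `U` open nonempty in `Pt d`. There is `y ∈ U` with
`Gen (lift (update p m y))` and `Phi α β (lift (update p m y)) = Phi α β (lift p)`. Choose by (2)
`y ∈ U` avoiding: the functionals `D_I` (`I` a `d`-subset of `{i ≠ m}`) and the functionals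
`D_I(v m) • D_{I'} - D_{I'}(v m) • D_I` (`I ≠ I'`; nonzero by (3), since `D_I(v m) ≠ 0`).
Path: `γ t = update p m ((1-t) • p m + t • y)`. `D_I` at the moving vector is
`(1-t) D_I(v m) + t D_I(1,y)`; two of these cannot vanish at the same `t`. If none vanishes, then
`Gen (lift (γ t))` (a set `A` with `|A| ≤ d+1`, extend it to `|A| = d+1`;
if `m ∉ A` it is independent by hypothesis, if `m ∈ A` use `I = A \ {m}`). If exactly `D_I`
vanishes, then `SD (lift (γ t)) (insert m I)`: every other `(d+1)`-set is independent, as before,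
and every set of at most `d` elements is contained in a `(d+1)`-set different from
`insert m I` (here `d + 2 ≤ s`). All but finitely many `t` have `Gen (lift (γ t))` (each affine
function is not identically `0`, because `D_I(v m) ≠ 0`).
So by (1) and `S_LOCG`, for every `t₀ ∈ ℝ` there is `c(t₀)` with
`∀ᶠ t in 𝓝[≠] t₀, Phi α β (lift (γ t)) = c(t₀)`, and `Phi α β (lift (γ t₀)) = c(t₀)` if
`Gen (lift (γ t₀))`. The function `c` is locally constant, hence constant; so the values at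
`t = 0, 1` agree.

(5) *Conclusion.* Let `p, p'` be general. By `S_LOCG` there is `ε > 0` such that every `q` with
`dist (q i) (p' i) < ε` for all `i` has `Phi (lift q) = Phi (lift p')`. By induction on a finset `M`
there is `q` with `Gen (lift q)`, `Phi (lift q) = Phi (lift p)`, `dist (q i) (p' i) < ε` for `i ∈ M`
(step (4) with `U = ball (p' m) ε`). Take `M = univ`. -/
def S_INV : Prop := S_LOC → S_LOCG → S_DATA → ∀ (s d : ℕ) (α β : ℕ → ℝ), 1 ≤ d → d + 2 ≤ s →
  Symm s α → Symm (d + 2) β → Balanced s d α β → ∀ p p' : Fin s → Pt d,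
  Gen (lift p) → Gen (lift p') → Phi α β (lift p) = Phi α β (lift p')

/-- **REAL**. Realization of all jumps. You may use `S_LOC` (proved by helper62).

Write `H = {x ∈ ℝ^d | x_{d-1} = 0}` (last coordinate), `f(t, x) = x_{d-1}`.
(1) *The points of `B`* (`B` = the first `d+1` indices). `p_0 = 0`, `p_i = e_{i-1}`
(`1 ≤ i ≤ d - 1`), all in `H`, and `p_d = ∑_{i<d} μ_i p_i` with `∑ μ_i = 1`, exactly `a` of the
`μ_i` positive and `d - a` negative (e.g. `μ_i = (1+d-a)/a` for `i < a`, `μ_i = -1` for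
`a ≤ i < d`). The `v_i = (1, p_i)`, `i < d`, are independent; `v_d = ∑ μ_i v_i`.
So `B` is dependent with dependency `(μ, -1)`, positive part
`L = {i < a}`, `|L| = a`, and every proper subset of `B` is independent (all coefficients are
nonzero).
(2) *The other points.* Let `E ⊆ Bᶜ` with `|E| = k`. By induction on a finset `M ⊇ B`: there are points
`p_i` (`i ∈ M`), equal to the above on `B`, with last coordinate `> 0` for `i ∈ E`, `< 0` for
`i ∈ M \ B \ E`, and such that every `A ⊆ M`, `|A| ≤ d+1`, `A ≠ B`, is independent. Step `M → M ∪ {q}`: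
for every `A ⊆ M` with `|A| ≤ d` (so `A ≠ B`) choose a nonzero functional `D_A` vanishing
on `v|_A` (the span is proper), and take the new point `y` in the open half space with
`D_A (1, y) ≠ 0` for all these `A` (avoidance lemma, see `S_INV` (2)); then `(1, y)` is
not in the span of `v|_A`.
The result is `p⁰` with `SD (lift p⁰) B`, `Data (lift p⁰) B L E`.
(3) *Perturbation.* Let `b₀ ∈ B`, `p^t = update p⁰ b₀ (p⁰ b₀ + t • e_{d-1})`. For small
`t ≠ 0`, `Gen (lift p^t)`: the sets other than `B` stay independent for small `t` (openness,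
`isOpen_setOf_linearIndependent`), and `B` is independent because `B \ {b₀}` is an independent
set of `d` vectors in `ker f`, so it spans `ker f`, and `f(v_{b₀}^t) = t ≠ 0`.
(4) *Types.* By `S_LOC` at `lift p⁰` for small `t ≠ 0` the configuration `lift p^t` has
`IsType … E` with value `c + Jump … k` or `IsType … (Bᶜ \ E)` with value `c + Jump … (N - k)`.
If `IsType w B L E'` (`w = lift p^t`, `E' ∈ {E, Bᶜ \ E}`), take `q ∉ B` (exists as `d + 2 ≤ s`): there is (Gordan,
`S_GORD`) `x ≠ 0` supported on `insert q B`, `∑ x_j w_j = 0`, with `sgn(L ∪ (E' ∩ {q})) x ≥ 0`; all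
its entries are nonzero (`Gen`). Apply `f`: `x_{b₀} t + x_q f(w_q) = 0`. The sign of `x_{b₀}` is that of
`sgn L b₀`, the sign of `x_q` is `+` iff `q ∈ E'`, the sign of `f(w_q)` is `+` iff `q ∈ E`. So for
`b₀ ∈ L`: if `t > 0` then `q ∈ E' ↔ q ∉ E`, so the type is `Bᶜ \ E`; if `t < 0` the type is `E`.
(If both alternatives of `S_LOC` give different `E'` then `q ∈ E'` tells them apart.)
Take `p = p^t` with small `t < 0` and `p' = p^{t'}` with small `t' > 0`. -/
def S_REAL : Prop := S_LOC → S_GORD → ∀ (s d a k : ℕ) (α β : ℕ → ℝ), 1 ≤ a → a ≤ d → d + 2 ≤ s →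
  k + d + 1 ≤ s → ∃ p p' : Fin s → Pt d, Gen (lift p) ∧ Gen (lift p') ∧
    Phi α β (lift p) - Phi α β (lift p') = Jump α β s d a k - Jump α β s d a (s - d - 1 - k)

/-- **ANN**. The balanced weights for `d ≥ 2`, `s ≥ d + 4`.

Write `N = s - d - 1 ≥ 3`, `δ_a = β(a+1) - β(a)` (`1 ≤ a ≤ d`). Balanced(a,k):
`α(a+N-k) - α(a+k) = -(N-2k) δ_a` (`0 ≤ k ≤ N`).
(1) For `1 ≤ a ≤ d-1`, `0 ≤ k ≤ N-1`, subtract Balanced(a+1,k+1) from Balanced(a,k):
`α(a+k+2) - α(a+k) = -(N-2k) δ_a + (N-2k-2) δ_{a+1}`.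
(2) For `1 ≤ a ≤ d-2`: (1) for `(a,1)` and `(a+1,0)` have the same left side, so
`(N-2)(δ_a - 2 δ_{a+1} + δ_{a+2}) = 0`: `δ` is an arithmetic progression.
(3) By `Symm`, `δ_{d+1-a} = -δ_a`. So `δ_a = w (2a - d - 1)` with `w = (δ_2 - δ_1)/2`; put `v = w/4`:
`β(i) = b + v (d+2-2i)²` for `1 ≤ i ≤ d+1`.
(4) (1) gives `α(x+2) - α(x) = 2w (s-2-2x)` for `1 ≤ x ≤ s-3` (`x = a+k`, `1 ≤ a ≤ d-1`,
`0 ≤ k ≤ N-1`), so `π(x) = α(x) + v (s-2x)²` has `π(x+2) = π(x)` (`1 ≤ x ≤ s-3`). So
`π(j) = u + u' (-1)^j`, `u = (π(1)+π(2))/2`, `u' = (π(2)-π(1))/2`.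
(5) If `s` is odd, `π(1) = π(s-1) = π(2)`, so `u' = 0`. If `s` and `d` are even, `N` is odd and
Balanced(1,0) says `π(1+N) = π(1)`, so `π(2) = π(1)`. -/
def S_ANN : Prop := ∀ (s d : ℕ) (α β : ℕ → ℝ), 2 ≤ d → d + 4 ≤ s → Symm s α → Symm (d + 2) β →
  Balanced s d α β → ∃ u u' b v : ℝ,
    (∀ i, 1 ≤ i → i ≤ d + 1 → β i = b + v * ((d : ℝ) + 2 - 2 * i) ^ 2) ∧
    (∀ j, 1 ≤ j → j < s → α j = u + u' * (-1) ^ j - v * ((s : ℝ) - 2 * j) ^ 2) ∧
    (u' ≠ 0 → Even s ∧ Odd d)

/-- The moment curve. -/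
def mom (s d : ℕ) : Fin s → Pt d := fun i => WithLp.toLp 2 (fun k : Fin d => ((i : ℕ) : ℝ) ^ ((k : ℕ) + 1))

/-- The positions of the sign changes of a pattern on `m + 1` linearly ordered elements. -/
def chg {m : ℕ} (T : Finset (Fin (m + 1))) : Finset (Fin m) :=
  univ.filter (fun c => ¬ (c.castSucc ∈ T ↔ c.succ ∈ T))

/-- **MOM**. The moment curve: general position; a pattern is separable iff it has at most `d`
sign changes; the circuits are the alternating patterns. You may use `S_CIRC` (proved by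
helper62).

A functional on `VS d` at the vectors `(1, p_i)` is `i ↦ q(i)`, `q` a real polynomial of degree
`≤ d` (and all such polynomials occur). `Gen`: Vandermonde, or: a nonzero polynomial of degree
`≤ d` has at most `d` zeros, so the `d+1` vectors (extend the set to `d + 1` different real
parameters) have no common nonzero annihilator in the dual, so they are a basis.
Separable ⇐: `T` with change set `C`, `|C| ≤ d`: `q(x) = ± ∏_{c ∈ C} (c + 1/2 - x)`.
⇒: if `q` has the signs of `T` at `0, 1, …, m`, it has a zero in `(c, c+1)` for every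
`c ∈ C`; so `|C| ≤ deg q ≤ d`. Circuits: by `S_CIRC`, `NS J` consists of exactly two
complementary patterns; the alternating pattern is nonseparable: a polynomial with alternating signs on
`j_0 < … < j_{d+1}` has `≥ d+1` zeros. -/
def S_MOM : Prop := S_CIRC → (∀ s d : ℕ, Gen (lift (mom s d))) ∧
  (∀ (m d : ℕ) (T : Finset (Fin (m + 1))), Sep (lift (mom (m + 1) d)) univ T ↔ (chg T).card ≤ d) ∧
  (∀ (s d : ℕ) (J : Finset (Fin s)), J.card = d + 2 → NS (lift (mom s d)) J =
    {J.filter (fun i => Even (J.filter (fun j => j < i)).card),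
      J.filter (fun i => ¬ Even (J.filter (fun j => j < i)).card)})

/-- **CNT**. The constants at the moment curve. You may use (2) and (3) of `S_MOM` in the form of the
two hypotheses.

Let `s = m + 1`. `T ↦ (0 ∈ T, chg T)` is a bijection from subsets of `Fin (m+1)` to
`Bool × Finset (Fin m)`, and for `i ≤ j`: `sgn T i * sgn T j = (-1)^{#{c ∈ chg T : i ≤ c < j}}`.
(a) `#{T : |chg T| > d} = 2 ∑_{k > d} C(m,k) = 2 (2^m - ∑_{k ≤ d} C(m,k)) = 2 τ`.
(b) `s` even, `d` odd: `(-1)^{|T|} = ∏_i sgn T i` (`s` even) `= ∏_{c ∈ chg T} ε_c` with `ε_c = -1`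
for `c` even (0-based: the pairs `(0,1), (2,3), …`), `ε_c = 1` for `c` odd. So the sum is
`2 ∑_{k>d} [x^k] (1-x)^{s/2} (1+x)^{s/2-1} = 2 ∑_{k>d} [x^k] (1-x) G`, `G = (1-x²)^{s/2-1}`;
`∑_{k ≤ d} [x^k] (1-x) G = [x^d] G = 0` (`d` odd) and the total sum is the value `0` at `x = 1`.
(`∑_{C ⊆ M} x^{|C|} ∏_{c∈C} ε_c = ∏_{c∈M} (1 + ε_c x)`: `Finset.prod_one_add`.)
(c) `(s-2|T|)² = (∑_i sgn T i)² = s + 2 ∑_{i<j} sgn T i sgn T j`, same for `J`. So with (a) and
`#NS J = 2` it suffices: for `i < j`,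
`∑_{T : |chg T|>d} sgn T i sgn T j = ∑_{J ∋ i, j, |J|=d+2} ∑_{X ∈ NS J} sgn X i sgn X j`. Put
`h = j - i`, `G = (1-x)^{h-1} (1+x)^{m-h}`. Left: `2 ∑_{k>d} [x^k] (1-x) G = -2 [x^d] G`.
Right: `sgn X i sgn X j = -(-1)^{#(J ∩ (i,j))}`; `J = K ∪ {i,j}`, `K ⊆ univ \ {i,j}` (`m - 1` elements,
`h - 1` of them between `i` and `j`), `|K| = d`: `-2 [x^d] (1-x)^{h-1} (1+x)^{m-h}`. -/
def S_CNT : Prop := ∀ m d : ℕ, 1 ≤ d →
  (∀ T : Finset (Fin (m + 1)), Sep (lift (mom (m + 1) d)) univ T ↔ (chg T).card ≤ d) →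
  (∀ J : Finset (Fin (m + 1)), J.card = d + 2 → NS (lift (mom (m + 1) d)) J =
    {J.filter (fun i => Even (J.filter (fun j => j < i)).card),
      J.filter (fun i => ¬ Even (J.filter (fun j => j < i)).card)}) →
  (((NS (lift (mom (m + 1) d)) univ).card : ℝ) = 2 * tau (m + 1) d) ∧
  (Even (m + 1) → Odd d → ∑ T ∈ NS (lift (mom (m + 1) d)) univ, (-1 : ℝ) ^ T.card = 0) ∧
  (∑ T ∈ NS (lift (mom (m + 1) d)) univ, (((m + 1 : ℕ) : ℝ) - 2 * T.card) ^ 2
    - ∑ J ∈ powersetCard (d + 2) (univ : Finset (Fin (m + 1))),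
        ∑ T ∈ NS (lift (mom (m + 1) d)) J, ((d : ℝ) + 2 - 2 * T.card) ^ 2
    = 2 * (((m + 1 : ℕ) : ℝ) * tau (m + 1) d - (d + 2) * ((m + 1).choose (d + 2) : ℝ)))

/-- **TWO**. `s = d + 3`: every nonseparable pattern contains exactly two circuits. You may use
`S_GORD`.

Let `T` be nonseparable on `univ`. `Dep = {x : Fin s → ℝ | ∑ x_i v_i = 0}` has dimension `2`
(rank-nullity, the `v_i` span), and a nonzero `x ∈ Dep` has at most one zero
entry (`Gen`: a dependency has at least `d + 2` nonzero entries). By Gordan there is `z ∈ Dep`,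
`z ≠ 0`, `sgn T i * z i ≥ 0`. We may take all `sgn T i * z i > 0`: if `z_p = 0`, add a small multiple of some
`w ∈ Dep` with `w_p ≠ 0` of the right sign. Take `w ∈ Dep` not proportional to `z`. Put
`ρ_i = w_i / z_i`: injective (if `ρ_i = ρ_j = ρ`, `i ≠ j`, then `w - ρ z ≠ 0` has two zero
entries). Every `x ∈ Dep` is `x = a z + b w`, `x_i = z_i (a + b ρ_i)`. `T \ {p}` is nonseparable on
`univ \ {p}` iff there is `x ≠ 0` in `Dep`, `x_p = 0`, `sgn T i * x i ≥ 0`, iff
(`a = -b ρ_p`, `b (ρ_i - ρ_p) ≥ 0` for all `i`) `ρ_p` is the minimum (`b > 0`) or the maximum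
(`b < 0`) of `ρ`. So there are exactly two such `p` (`s ≥ 2`). Double counting of the pairs
`(T, p)` with `|T| = j`: `J = univ \ {p}` runs over the `(d+2)`-subsets, and
`T ∩ J` has `j` (`p ∉ T`) or `j - 1` (`p ∈ T`) elements. -/
def S_TWO : Prop := S_GORD → ∀ (s d : ℕ) (v : Fin s → VS d), s = d + 3 → Gen v → ∀ j : ℕ, 1 ≤ j →
  2 * RN v j = PN v j + PN v (j - 1)

/-- **ONE**. `d = 1`. The real numbers `t_i = p_i 0` are distinct. A set `T` with `1 ≤ |T| = j < s` is
separable iff it consists of the `j` smallest or of the `j` largest `t_i` (an affine function on `ℝ` is monotone);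
these are two different sets. -/
def S_ONE : Prop := ∀ (s : ℕ) (p : Fin s → Pt 1), Gen (lift p) → ∀ j, 1 ≤ j → j < s →
  (RN (lift p) j : ℝ) = (s.choose j : ℝ) - 2

/-- **BRI**. Separation of convex hulls.
If the hulls of the finite sets are disjoint, they are compact convex, so there are a continuous linear `f`
and `u` with `f > u` on the first and `f < u` on the second (`geometric_hahn_banach_compact_closed` gives
even two constants): `F(t,x) = f x - u t` separates. Conversely `{x | F(1,x) > 0}` and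
`{x | F(1,x) < 0}` are convex and disjoint. -/
def S_BRI : Prop := ∀ (s d : ℕ) (p : Fin s → Pt d) (A B : Finset (Fin s)), Disjoint A B →
  ((convexHull ℝ ((A.image p : Finset (Pt d)) : Set (Pt d)) ∩
    convexHull ℝ ((B.image p : Finset (Pt d)) : Set (Pt d))).Nonempty ↔
    ¬ Sep (lift p) (A ∪ B) A)

/-- **RAD**. The Radon numbers and the ordered counts. You may use `S_BRI`.
`Sep` with `(1,0,…,0)` and its negative: `∅` and `univ` are separable (`s ≥ 1`), so `RN 0 = RN s = 0`.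
`T ↦ univ \ T` is a bijection of `NS univ` (`-f`). `p` is injective (`Gen`, `1 ≤ d`). Radon partitions
`{T₁, T₂}` of type `{i, s-i}` of `S = image p` correspond to `T = p⁻¹ T₁` in `NS univ`: for
`2i < s` the map `T ↦ {image p T, image p Tᶜ}` from `{T ∈ NS univ, |T| = i}` is a bijection, for `2i = s` it is 2-to-1. -/
def S_RAD : Prop := S_BRI → ∀ (s d : ℕ) (p : Fin s → Pt d), 1 ≤ d → 1 ≤ s → Gen (lift p) →
  RN (lift p) 0 = 0 ∧ RN (lift p) s = 0 ∧ (∀ i ≤ s, RN (lift p) (s - i) = RN (lift p) i) ∧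
  ∀ i, 1 ≤ i → 2 * i ≤ s →
    (if 2 * i = s then 2 else 1) * radonNumber (univ.image p) i = RN (lift p) i

/-- **PRI**. The primitive Radon numbers and the ordered counts. You may use `S_BRI`, `S_GORD`, `S_HELL`.
A `RadonPair (image p A) (image p B)` is primitive iff `|A ∪ B| = d + 2`. ⇐: if
`A' ⊆ A`, `B' ⊆ B` is a Radon pair, Gordan gives a dependency supported on `A' ∪ B'`; by `Gen` it has at least
`d + 2` nonzero entries, so `A' ∪ B' = A ∪ B`. ⇒: by Gordan and `Gen`, `|A ∪ B| ≥ d + 2`; by Helly there is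
`J ⊆ A ∪ B`, `|J| = d + 2` with `¬ Sep (lift p) J A`; then `(A ∩ J, B ∩ J)` is a Radon pair (both are nonempty,
because of the first coordinate), so by minimality `J = A ∪ B`. Then as in RAD, for each `J`. -/
def S_PRI : Prop := S_BRI → S_GORD → S_HELL → ∀ (s d : ℕ) (p : Fin s → Pt d), 1 ≤ d → d + 2 ≤ s →
  Gen (lift p) →
  PN (lift p) 0 = 0 ∧ PN (lift p) (d + 2) = 0 ∧ (∀ i ≤ d + 2, PN (lift p) (d + 2 - i) = PN (lift p) i) ∧
  ∀ i, 1 ≤ i → 2 * i ≤ d + 2 →
    (if 2 * i = d + 2 then 2 else 1) * primitiveNumber (univ.image p) i = PN (lift p) i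

/-- **GP**. General position of finite sets and of configurations.
First part: enumerate `S`. If `A`, `|A| ≤ d+1`, is dependent, extend it to `|A| = d+1`; the `d+1` dependent vectors
`(1, p_i)` span a proper subspace, so there is a nonzero functional `f(t,x) = c t + ⟪a, x⟫` vanishing on them;
`a ≠ 0` (otherwise `c = f(1, p_i) = 0`), contradiction to `GeneralPosition` with `b = -c`.
Second part: two equal points give a dependent pair (`2 ≤ d+1`). `d+1` points on a hyperplane: the functional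
`⟪a, x⟫ - b t` vanishes on a basis, so it is `0`. -/
def S_GP : Prop := ∀ s d : ℕ, 1 ≤ d → d + 2 ≤ s →
  (∀ S : Finset (Pt d), S.card = s → GeneralPosition S →
    ∃ p : Fin s → Pt d, univ.image p = S ∧ Gen (lift p)) ∧
  (∀ p : Fin s → Pt d, Gen (lift p) →
    (univ.image p : Finset (Pt d)).card = s ∧ GeneralPosition (univ.image p : Finset (Pt d)))

/-- **FOLD**. `j ↦ m - j` maps the `j` with `2j > m` to those with `2j < m`. -/
def S_FOLD : Prop := ∀ (m l : ℕ) (x : Fin l → ℝ) (g : ℕ → ℝ), l = m / 2 → Symm m g →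
  ∑ j ∈ Ico 1 m, g j * ordered m x j = 2 * ∑ i : Fin l, g ((i : ℕ) + 1) * x i

end

end Pool.Agent.Run7.h62.RV
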