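import Pool.Agent.Run7.h62.RV.LocG

/-! Piece LOC of MP_620441_co (helper62). -/

namespace Pool.Agent.Run7.h62.RV

open Finset Filter Topology

noncomputable section

open scoped Classical

variable {s d : ℕ}

/-- Prescribed values of a functional on independent vectors. -/
theorem exists_functional {v : Fin s → VS d} {A : Finset (Fin s)}
    (h : LinearIndependent ℝ (fun i : A => v i)) (c : Fin s → ℝ) :
    ∃ g : VS d →ₗ[ℝ] ℝ, ∀ i ∈ A, g (v i) = c i := by
  obtain ⟨g, hg⟩ := LinearMap.exists_extend ((Module.Basis.span h).constr ℝ (fun i : A => c i))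
  refine ⟨g, fun i hi => ?_⟩
  have h1 := LinearMap.congr_fun hg (Module.Basis.span h ⟨i, hi⟩)
  rw [LinearMap.comp_apply, Module.Basis.constr_basis] at h1
  simpa [Module.Basis.span_apply] using h1

/-- Near the hyperplane of `B`, all patterns which agree with `± E` off `B` are separable on
`univ \ {b}`. -/
theorem sepB {v : Fin s → VS d} {B L E : Finset (Fin s)} (hB : SD v B) (hD : Data v B L E)
    {b : Fin s} (hb : b ∈ B) (T : Finset (Fin s))
    (hT : (∀ q ∉ B, (q ∈ T ↔ q ∈ E)) ∨ (∀ q ∉ B, (q ∈ T ↔ q ∉ E))) :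
    Sep v (univ.erase b) T := by
  obtain ⟨-, hE, -, f, hfB, hfq⟩ := hD
  have hli : LinearIndependent ℝ (fun i : (B.erase b : Finset (Fin s)) => v i) := by
    apply hB.2.2
    · rw [Finset.card_erase_of_mem hb, hB.1]; omega
    · intro h
      have := Finset.notMem_erase b B
      rw [h] at this
      exact this hb
  obtain ⟨g, hg⟩ := exists_functional hli (fun i => sgn T i)
  -- choose the sign
  obtain ⟨f', hf'B, hf'q⟩ : ∃ f' : VS d →ₗ[ℝ] ℝ, (∀ b ∈ B, f' (v b) = 0) ∧
      (∀ q ∉ B, 0 < sgn T q * f' (v q)) := by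
    rcases hT with hT | hT
    · exact ⟨f, hfB, fun q hq => by rw [sgn_congr (hT q hq)]; exact hfq q hq⟩
    · refine ⟨-f, fun b hb => by simp [hfB b hb], fun q hq => ?_⟩
      have h1 := hfq q hq
      have h2 := hT q hq
      by_cases h3 : q ∈ E
      · rw [sgn_of_mem h3] at h1
        rw [sgn_of_notMem (fun h4 => (h2.1 h4) h3)]
        simpa using h1
      · rw [sgn_of_notMem h3] at h1
        rw [sgn_of_mem (h2.2 h3)]
        simpa using h1
  have h1 : ∀ᶠ δ : ℝ in 𝓝 0, ∀ q ∈ Bᶜ, 0 < sgn T q * (f' (v q) + δ * g (v q)) := by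
    rw [Filter.eventually_all_finset]
    intro q hq
    have hc : Continuous (fun δ : ℝ => sgn T q * (f' (v q) + δ * g (v q))) := by fun_prop
    apply (hc.tendsto 0).eventually (lt_mem_nhds _)
    simp only [zero_mul, add_zero]
    exact hf'q q (by simpa using hq)
  have h2 : ∀ᶠ δ : ℝ in 𝓝[>] 0, ∀ q ∈ Bᶜ, 0 < sgn T q * (f' (v q) + δ * g (v q)) :=
    h1.filter_mono nhdsWithin_le_nhds
  obtain ⟨δ, hδ, hδ0⟩ := (h2.and self_mem_nhdsWithin).exists
  refine ⟨f' + δ • g, fun j hj => ?_⟩
  simp only [LinearMap.add_apply, LinearMap.smul_apply, smul_eq_mul]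
  by_cases hjB : j ∈ B
  · rw [hf'B j hjB, hg j (by
      rw [Finset.mem_erase] at hj ⊢
      exact ⟨hj.1, hjB⟩), zero_add]
    calc (0 : ℝ) < δ := hδ0
      _ = sgn T j * (δ * sgn T j) := by
        have := sgn_mul_self T j
        calc δ = δ * (sgn T j * sgn T j) := by rw [this, mul_one]
          _ = _ := by ring
  · exact hδ j (by simpa using hjB)

/-- At the degenerate configuration the nonseparable patterns on `B ∪ {q}` restrict to
`L` or `B \ L`. -/
theorem NS_insert {v : Fin s → VS d} {B L E : Finset (Fin s)} (hB : SD v B) (hD : Data v B L E)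
    {q : Fin s} (hq : q ∉ B) {T : Finset (Fin s)} (hT : T ∈ NS v (insert q B)) :
    T ∩ B = L ∨ T ∩ B = B \ L := by
  obtain ⟨hL, hE, ⟨x, hxs, hxB, hx⟩, f, hfB, hfq⟩ := hD
  rw [mem_NS, p_GORD] at hT
  obtain ⟨hTs, y, hy0, hyJ, hys, hy⟩ := hT
  have hyq : y q = 0 := by
    have h1 := congrArg f hy
    rw [map_sum, map_zero] at h1
    simp only [map_smul, smul_eq_mul] at h1
    rw [Finset.sum_eq_single q] at h1
    · have h2 := hfq q hq
      apply (mul_eq_zero.1 h1).resolve_right
      intro h3
      rw [h3, mul_zero] at h2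
      exact lt_irrefl _ h2
    · intro j _ hj
      by_cases hjB : j ∈ B
      · rw [hfB j hjB, mul_zero]
      · rw [hyJ j (by simp [hj, hjB]), zero_mul]
    · intro h; exact absurd (Finset.mem_univ q) h
  have hyB : ∀ j ∉ B, y j = 0 := by
    intro j hj
    by_cases hjq : j = q
    · rw [hjq]; exact hyq
    · exact hyJ j (by simp [hj, hjq])
  obtain ⟨b0, hb0⟩ : B.Nonempty := by
    rw [← Finset.card_pos, hB.1]; omega
  have hxne : ∀ b ∈ B, x b ≠ 0 := by
    intro b hb h
    have := hxs b hb
    rw [h, mul_zero] at this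
    exact lt_irrefl _ this
  have hyc : y = (y b0 / x b0) • x := by
    have hli := hB.2.2 (B.erase b0) (by
      rw [Finset.card_erase_of_mem hb0, hB.1]; omega) (by
      intro h
      have := Finset.notMem_erase b0 B
      rw [h] at this
      exact this hb0)
    rw [linInd_iff_dep] at hli
    have := hli (y - (y b0 / x b0) • x) (by
        intro j hj
        by_cases hjB : j ∈ B
        · have hjb : j = b0 := by
            by_contra h
            exact hj (Finset.mem_erase.2 ⟨h, hjB⟩)
          rw [hjb]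
          simp only [Pi.sub_apply, Pi.smul_apply, smul_eq_mul]
          rw [div_mul_cancel₀ _ (hxne b0 hb0), sub_self]
        · simp [hyB j hjB, hxB j hjB])
      (by
        simp only [Pi.sub_apply, Pi.smul_apply, smul_eq_mul, sub_smul, Finset.sum_sub_distrib, hy,
          mul_smul]
        rw [← Finset.smul_sum, hx]
        simp)
    exact sub_eq_zero.1 this
  set c := y b0 / x b0 with hc
  have hc0 : c ≠ 0 := by
    rintro h
    rw [hyc, h, zero_smul] at hy0
    exact hy0 rfl
  have hxL : ∀ b ∈ B, (b ∈ L ↔ 0 < x b) := by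
    intro b hb
    have h1 := hxs b hb
    by_cases h : b ∈ L
    · rw [sgn_of_mem h, one_mul] at h1; simp [h, h1]
    · rw [sgn_of_notMem h] at h1
      constructor
      · intro h2; exact absurd h2 h
      · intro h2; linarith
  have hyb : ∀ b, y b = c * x b := by
    intro b
    have := congrFun hyc b
    simpa using this
  rcases lt_or_gt_of_ne hc0 with hcn | hcp
  · right
    ext b
    rw [Finset.mem_inter, Finset.mem_sdiff]
    constructor
    · rintro ⟨hbT, hbB⟩
      refine ⟨hbB, ?_⟩
      rw [hxL b hbB]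
      intro h
      have h1 := hys b
      rw [sgn_of_mem hbT, one_mul, hyb] at h1
      have := mul_neg_of_neg_of_pos hcn h
      linarith
    · rintro ⟨hbB, hbL⟩
      refine ⟨?_, hbB⟩
      by_contra hbT
      rw [hxL b hbB] at hbL
      have h1 := hys b
      rw [sgn_of_notMem hbT, hyb] at h1
      have h2 : x b < 0 := lt_of_le_of_ne (not_lt.1 hbL) (hxne b hbB)
      have := mul_pos_of_neg_of_neg hcn h2
      linarith
  · left
    ext b
    rw [Finset.mem_inter]
    constructor
    · rintro ⟨hbT, hbB⟩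
      rw [hxL b hbB]
      by_contra h
      have h1 := hys b
      rw [sgn_of_mem hbT, one_mul, hyb] at h1
      have h2 : x b < 0 := lt_of_le_of_ne (not_lt.1 h) (hxne b hbB)
      have := mul_neg_of_pos_of_neg hcp h2
      linarith
    · intro hbL
      have hbB := hL hbL
      refine ⟨?_, hbB⟩
      by_contra hbT
      rw [hxL b hbB] at hbL
      have h1 := hys b
      rw [sgn_of_notMem hbT, hyb] at h1
      have := mul_pos hcp hbL
      linarith

/-- A nonseparable pattern on a circuit gives a dependency with exactly these signs. -/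
theorem dep_of_NS {w : Fin s → VS d} (hw : Gen w) {J X : Finset (Fin s)} (hJ : J.card = d + 2)
    (hX : X ∈ NS w J) : ∃ y : Fin s → ℝ, (∀ j ∉ J, y j = 0) ∧ (∀ j ∈ J, 0 < sgn X j * y j) ∧
      ∑ j, y j • w j = 0 := by
  rw [mem_NS, p_GORD] at hX
  obtain ⟨hXJ, y, hy0, hyJ, hys, hy⟩ := hX
  refine ⟨y, hyJ, fun j hj => lt_of_le_of_ne (hys j) ?_, hy⟩
  intro h
  have hyj : y j = 0 := (mul_eq_zero.1 h.symm).resolve_left (sgn_ne_zero _ _)
  have hli := hw (J.erase j) (by rw [Finset.card_erase_of_mem hj, hJ]; omega)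
  rw [linInd_iff_dep] at hli
  apply hy0
  apply hli y _ hy
  intro i hi
  by_cases hij : i = j
  · rw [hij]; exact hyj
  · apply hyJ
    intro h2
    exact hi (Finset.mem_erase.2 ⟨hij, h2⟩)

theorem type_dichotomy {v w : Fin s → VS d} {B L E : Finset (Fin s)} (hB : SD v B)
    (hD : Data v B L E) (hw : Gen w) (hsep : ∀ J T : Finset (Fin s), Sep v J T → Sep w J T) :
    IsType w B L E ∨ IsType w B L (Bᶜ \ E) := by
  have hL : L ⊆ B := hD.1
  have hcard : ∀ q ∉ B, (insert q B).card = d + 2 := by
    intro q hq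
    rw [Finset.card_insert_of_notMem hq, hB.1]
  have h1 : ∀ q ∉ B, L ∪ (E ∩ {q}) ∈ NS w (insert q B) ∨
      L ∪ ((Bᶜ \ E) ∩ {q}) ∈ NS w (insert q B) := by
    intro q hq
    have hc := card_NS (hcard q hq) (fun A _ hA => hw A hA)
    obtain ⟨X, hX⟩ : (NS w (insert q B)).Nonempty := by
      rw [← Finset.card_pos, hc]; norm_num
    obtain ⟨X, hX, hXL⟩ : ∃ X ∈ NS w (insert q B), X ∩ B = L := by
      rcases NS_insert hB hD hq (NS_subset_of hsep _ hX) with h | h
      · exact ⟨X, hX, h⟩
      · refine ⟨insert q B \ X, sdiff_mem_NS hX, ?_⟩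
        ext b
        have hb := Finset.ext_iff.1 h b
        simp only [Finset.mem_inter, Finset.mem_sdiff, Finset.mem_insert] at hb ⊢
        have hLb : b ∈ L → b ∈ B := fun h => hL h
        tauto
    have hXs : X ⊆ insert q B := (mem_NS.1 hX).1
    by_cases hqX : q ∈ X
    · have hXe : X = insert q L := by
        ext b
        rw [Finset.mem_insert]
        constructor
        · intro hb
          rcases Finset.mem_insert.1 (hXs hb) with h | h
          · exact Or.inl h
          · right; rw [← hXL]; exact Finset.mem_inter.2 ⟨hb, h⟩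
        · rintro (h | h)
          · rw [h]; exact hqX
          · rw [← hXL] at h; exact (Finset.mem_inter.1 h).1
      by_cases hqE : q ∈ E
      · left
        rw [Finset.inter_singleton_of_mem hqE, Finset.union_comm]
        rw [hXe] at hX
        exact hX
      · right
        rw [Finset.inter_singleton_of_mem (by simp [hq, hqE]), Finset.union_comm]
        rw [hXe] at hX
        exact hX
    · have hXe : X = L := by
        rw [← hXL]
        ext b
        rw [Finset.mem_inter]
        constructor
        · intro hb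
          refine ⟨hb, ?_⟩
          rcases Finset.mem_insert.1 (hXs hb) with h | h
          · rw [h] at hb; exact absurd hb hqX
          · exact h
        · exact fun h => h.1
      by_cases hqE : q ∈ E
      · right
        rw [Finset.inter_singleton_of_notMem (by simp [hqE]), Finset.union_empty, ← hXe]
        exact hX
      · left
        rw [Finset.inter_singleton_of_notMem hqE, Finset.union_empty, ← hXe]
        exact hX
  by_contra hcon
  push Not at hcon
  obtain ⟨hn1, hn2⟩ := hcon
  unfold IsType at hn1 hn2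
  push Not at hn1 hn2
  obtain ⟨q, hqB, hq⟩ := hn1
  obtain ⟨q', hq'B, hq'⟩ := hn2
  have hX := (h1 q hqB).resolve_left hq
  have hX' := (h1 q' hq'B).resolve_right hq'
  have hne : q ≠ q' := by
    rintro rfl
    exact hq hX'
  obtain ⟨y, hyJ, hys, hy⟩ := dep_of_NS hw (hcard q hqB) hX
  obtain ⟨y', hy'J, hy's, hy'⟩ := dep_of_NS hw (hcard q' hq'B) hX'
  obtain ⟨b0, hb0⟩ : B.Nonempty := by
    rw [← Finset.card_pos, hB.1]; omega
  -- signs on `B`
  have hsB : ∀ b ∈ B, 0 < sgn L b * y b := by
    intro b hb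
    have h2 := hys b (Finset.mem_insert_of_mem hb)
    rwa [sgn_congr (T' := L)] at h2
    have hbq : b ≠ q := fun h => hqB (h ▸ hb)
    simp [hbq]
  have hs'B : ∀ b ∈ B, 0 < sgn L b * y' b := by
    intro b hb
    have h2 := hy's b (Finset.mem_insert_of_mem hb)
    rwa [sgn_congr (T' := L)] at h2
    have hbq : b ≠ q' := fun h => hq'B (h ▸ hb)
    simp [hbq]
  have hLq : ∀ q ∉ B, q ∉ L := fun q hq h => hq (hL h)
  have hsq : sgn E q * y q < 0 := by
    have h2 := hys q (Finset.mem_insert_self _ _)
    by_cases hqE : q ∈ E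
    · rw [sgn_of_notMem (by simp [hLq q hqB, hqE])] at h2
      rw [sgn_of_mem hqE]
      linarith
    · rw [sgn_of_mem (by simp [hqB, hqE])] at h2
      rw [sgn_of_notMem hqE]
      linarith
  have hsq' : 0 < sgn E q' * y' q' := by
    have h2 := hy's q' (Finset.mem_insert_self _ _)
    rwa [sgn_congr (T' := E)] at h2
    simp [hLq q' hq'B]
  -- eliminate `b0`
  set c := sgn L b0 * y b0 with hc
  set c' := sgn L b0 * y' b0 with hc'
  have hcp : 0 < c := hsB b0 hb0
  have hcp' : 0 < c' := hs'B b0 hb0
  set z : Fin s → ℝ := c • y' - c' • y with hz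
  have hzb0 : z b0 = 0 := by
    simp only [hz, Pi.sub_apply, Pi.smul_apply, smul_eq_mul, hc, hc']
    ring
  have hzq : 0 < sgn E q * z q := by
    have h2 : y' q = 0 := hy'J q (by simp [hqB, hne])
    simp only [hz, Pi.sub_apply, Pi.smul_apply, smul_eq_mul, h2]
    have := mul_neg_of_pos_of_neg hcp' hsq
    nlinarith
  have hzq' : 0 < sgn E q' * z q' := by
    have h2 : y q' = 0 := hyJ q' (by simp [hq'B, hne.symm])
    simp only [hz, Pi.sub_apply, Pi.smul_apply, smul_eq_mul, h2]
    have := mul_pos hcp hsq'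
    nlinarith
  have hzoff : ∀ j ∉ B, j ≠ q → j ≠ q' → z j = 0 := by
    intro j hj hjq hjq'
    simp only [hz, Pi.sub_apply, Pi.smul_apply, smul_eq_mul, hyJ j (by simp [hj, hjq]),
      hy'J j (by simp [hj, hjq'])]
    ring
  have hzs : ∑ j, z j • w j = 0 := by
    simp only [hz, Pi.sub_apply, Pi.smul_apply, smul_eq_mul, sub_smul, Finset.sum_sub_distrib,
      mul_smul]
    rw [← Finset.smul_sum, ← Finset.smul_sum, hy, hy']
    simp
  have hE : E ⊆ Bᶜ := hD.2.1
  have hT := sepB hB hD hb0 (E ∪ B.filter (fun b => 0 < z b)) (Or.inl (by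
    intro q hq
    simp [hq]))
  have hT' := hsep _ _ hT
  revert hT'
  rw [imp_false, p_GORD]
  refine ⟨z, ?_, ?_, ?_, hzs⟩
  · intro h
    rw [h, Pi.zero_apply, mul_zero] at hzq
    exact lt_irrefl _ hzq
  · intro j hj
    have : j = b0 := by simpa using hj
    rw [this]; exact hzb0
  · intro j
    by_cases hjB : j ∈ B
    · by_cases hzj : 0 < z j
      · rw [sgn_of_mem (by simp [hjB, hzj]), one_mul]; exact hzj.le
      · rw [sgn_of_notMem]
        · push Not at hzj
          linarith
        · rw [Finset.mem_union, Finset.mem_filter]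
          rintro (h | h)
          · exact (Finset.mem_compl.1 (hE h)) hjB
          · exact hzj h.2
    · rw [sgn_congr (T' := E) (by simp [hjB])]
      by_cases hjq : j = q
      · rw [hjq]; exact hzq.le
      · by_cases hjq' : j = q'
        · rw [hjq']; exact hzq'.le
        · rw [hzoff j hjB hjq hjq', mul_zero]

end

end Pool.Agent.Run7.h62.RV
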