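import Pool.Agent.Run7.h62.RV.Loc

/-! Piece LOC of MP_620441_co (helper62), second part. -/

namespace Pool.Agent.Run7.h62.RV

open Finset Filter Topology

noncomputable section

open scoped Classical

variable {s d : ℕ}

/-- The patterns which are nonseparable near `v` independently of the side. -/
def KK (v : Fin s → VS d) (B L : Finset (Fin s)) : Finset (Finset (Fin s)) :=
  univ.filter (fun T => (T ∩ B = L ∨ T ∩ B = B \ L) ∨
    ∃ J : Finset (Fin s), J.card = d + 2 ∧ ¬ B ⊆ J ∧ T ∩ J ∈ NS v J)

theorem NS_eq_of_not_subset {v w : Fin s → VS d} {B : Finset (Fin s)} (hB : SD v B) (hw : Gen w)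
    (hsep : ∀ J T : Finset (Fin s), Sep v J T → Sep w J T) {J : Finset (Fin s)}
    (hJ : J.card = d + 2) (hBJ : ¬ B ⊆ J) : NS w J = NS v J := by
  apply Finset.eq_of_subset_of_card_le (NS_subset_of hsep J)
  rw [card_NS hJ (fun A _ hA => hw A hA), card_NS hJ (fun A hAJ hA => hB.2.2 A hA (by
    rintro rfl; exact hBJ hAJ))]

theorem NS_insert_type {w : Fin s → VS d} {B L E' : Finset (Fin s)} (hBc : B.card = d + 1)
    (hw : Gen w) (hty : IsType w B L E') {q : Fin s} (hq : q ∉ B) :
    NS w (insert q B) = {L ∪ (E' ∩ {q}), insert q B \ (L ∪ (E' ∩ {q}))} := by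
  have hcard : (insert q B).card = d + 2 := by
    rw [Finset.card_insert_of_notMem hq, hBc]
  have hX := hty q hq
  have hX2 := sdiff_mem_NS hX
  have hne : L ∪ (E' ∩ {q}) ≠ insert q B \ (L ∪ (E' ∩ {q})) := by
    intro h
    have h1 := Finset.ext_iff.1 h q
    simp only [Finset.mem_sdiff, Finset.mem_insert_self, true_and] at h1
    tauto
  symm
  apply Finset.eq_of_subset_of_card_le
  · intro T hT
    rcases Finset.mem_insert.1 hT with h | h
    · rw [h]; exact hX
    · rw [Finset.mem_singleton.1 h]; exact hX2
  · rw [card_NS hcard (fun A _ hA => hw A hA), Finset.card_pair hne]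

theorem mem_NS_univ_of_inter {v w : Fin s → VS d} {B L E E' : Finset (Fin s)} (hs : d + 2 ≤ s)
    (hB : SD v B) (hD : Data v B L E) (hw : Gen w)
    (hsep : ∀ J T : Finset (Fin s), Sep v J T → Sep w J T) (hE' : E' = E ∨ E' = Bᶜ \ E)
    (hty : IsType w B L E') {T : Finset (Fin s)} (hT : T ∩ B = L) :
    T ∈ NS w univ ↔ T ≠ L ∪ (Bᶜ \ E') := by
  have hL : L ⊆ B := hD.1
  constructor
  · rintro h rfl
    rw [mem_NS_univ hs] at h
    obtain ⟨J, hJ, hTJ⟩ := h
    by_cases hBJ : B ⊆ J
    · -- `J = insert q B`
      obtain ⟨q, hqB, rfl⟩ : ∃ q ∉ B, insert q B = J := by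
        have h1 : (J \ B).card = 1 := by
          rw [Finset.card_sdiff_of_subset hBJ, hJ, hB.1]; omega
        obtain ⟨q, hq⟩ := Finset.card_eq_one.1 h1
        have hqJ : q ∈ J \ B := by rw [hq]; simp
        rw [Finset.mem_sdiff] at hqJ
        refine ⟨q, hqJ.2, ?_⟩
        ext j
        have := Finset.ext_iff.1 hq j
        simp only [Finset.mem_sdiff, Finset.mem_singleton] at this
        rw [Finset.mem_insert]
        have hj : j ∈ B → j ∈ J := fun h => hBJ h
        tauto
      rw [NS_insert_type hB.1 hw hty hqB, Finset.mem_insert, Finset.mem_singleton] at hTJ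
      have hqL : q ∉ L := fun h => hqB (hL h)
      rcases hTJ with h | h
      · have h1 := Finset.ext_iff.1 h q
        simp only [Finset.mem_inter, Finset.mem_union, Finset.mem_sdiff, Finset.mem_compl,
          Finset.mem_insert_self, Finset.mem_singleton, hqL, hqB] at h1
        tauto
      · obtain ⟨b0, hb0⟩ : B.Nonempty := by
          rw [← Finset.card_pos, hB.1]; omega
        have h1 := Finset.ext_iff.1 h b0
        have hbq : b0 ≠ q := fun h => hqB (h ▸ hb0)
        simp only [Finset.mem_inter, Finset.mem_union, Finset.mem_sdiff, Finset.mem_compl,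
          Finset.mem_insert, Finset.mem_singleton, hb0, hbq] at h1
        tauto
    · obtain ⟨b, hb, hbJ⟩ := Finset.not_subset.1 hBJ
      have h1 := sepB hB hD hb (L ∪ (Bᶜ \ E')) (by
        rcases hE' with h | h
        · right
          intro q hq
          have hqL : q ∉ L := fun h => hq (hL h)
          simp [h, hq, hqL]
        · left
          intro q hq
          have hqL : q ∉ L := fun h => hq (hL h)
          simp [h, hq, hqL])
      have h2 := hsep _ _ h1
      rw [mem_NS, sep_inter_iff] at hTJ
      apply hTJ.2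
      apply h2.mono
      intro j hj
      rw [Finset.mem_erase]
      exact ⟨fun h => hbJ (h ▸ hj), Finset.mem_univ j⟩
  · intro hne
    obtain ⟨q, hqB, hq⟩ : ∃ q ∉ B, (q ∈ T ↔ q ∈ E') := by
      by_contra hcon
      push Not at hcon
      apply hne
      ext j
      have h1 := Finset.ext_iff.1 hT j
      rw [Finset.mem_inter] at h1
      have h2 := hcon j
      have h3 : j ∈ L → j ∈ B := fun h => hL h
      simp only [Finset.mem_union, Finset.mem_sdiff, Finset.mem_compl]
      by_cases hjB : j ∈ B
      · simp only [hjB, and_true, not_true_eq_false, false_and, or_false] at h1 ⊢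
        exact h1
      · have h4 : j ∉ L := fun h => hjB (h3 h)
        simp only [hjB, h4, false_or, not_false_eq_true, true_and] at h2 ⊢
        have := h2 trivial
        tauto
    rw [mem_NS_univ hs]
    refine ⟨insert q B, by rw [Finset.card_insert_of_notMem hqB, hB.1], ?_⟩
    have : T ∩ insert q B = L ∪ (E' ∩ {q}) := by
      ext j
      have h1 := Finset.ext_iff.1 hT j
      simp only [Finset.mem_inter, Finset.mem_union, Finset.mem_insert,
        Finset.mem_singleton] at h1 ⊢
      by_cases hjq : j = q
      · subst hjq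
        have hqL : j ∉ L := fun h => hqB (hL h)
        simp only [true_or, and_true, hqL, false_or]
        exact hq
      · simp only [hjq, false_or, and_false, or_false]
        exact h1
    rw [this]
    exact hty q hqB

theorem compl_mem_NS_univ {w : Fin s → VS d} {T : Finset (Fin s)} :
    Tᶜ ∈ NS w univ ↔ T ∈ NS w univ := by
  constructor
  · intro h
    have := sdiff_mem_NS h
    simpa [← Finset.compl_eq_univ_sdiff] using this
  · intro h
    have := sdiff_mem_NS h
    simpa [← Finset.compl_eq_univ_sdiff] using this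

theorem NS_univ_type {v w : Fin s → VS d} {B L E E' : Finset (Fin s)} (hs : d + 2 ≤ s)
    (hB : SD v B) (hD : Data v B L E) (hw : Gen w)
    (hsep : ∀ J T : Finset (Fin s), Sep v J T → Sep w J T) (hE' : E' = E ∨ E' = Bᶜ \ E)
    (hty : IsType w B L E') :
    NS w univ = KK v B L \ {L ∪ (Bᶜ \ E'), (B \ L) ∪ E'} := by
  have hL : L ⊆ B := hD.1
  have hE'B : E' ⊆ Bᶜ := by
    rcases hE' with h | h
    · rw [h]; exact hD.2.1
    · rw [h]; exact Finset.sdiff_subset
  have hc : (L ∪ (Bᶜ \ E'))ᶜ = (B \ L) ∪ E' := by
    ext j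
    have h1 : j ∈ L → j ∈ B := fun h => hL h
    have h2 : j ∈ E' → j ∉ B := fun h => Finset.mem_compl.1 (hE'B h)
    simp only [Finset.mem_compl, Finset.mem_union, Finset.mem_sdiff]
    tauto
  ext T
  simp only [KK, Finset.mem_sdiff, Finset.mem_filter, Finset.mem_univ, true_and,
    Finset.mem_insert, Finset.mem_singleton]
  by_cases hT1 : T ∩ B = L
  · rw [mem_NS_univ_of_inter hs hB hD hw hsep hE' hty hT1]
    have h2 : T ≠ (B \ L) ∪ E' := by
      intro h
      obtain ⟨b0, hb0⟩ : B.Nonempty := by
        rw [← Finset.card_pos, hB.1]; omega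
      have h3 := Finset.ext_iff.1 hT1 b0
      have h4 : b0 ∉ E' := fun h => Finset.mem_compl.1 (hE'B h) hb0
      rw [h] at h3
      simp only [Finset.mem_inter, Finset.mem_union, Finset.mem_sdiff, hb0, h4] at h3
      tauto
    simp [hT1, h2]
  · by_cases hT2 : T ∩ B = B \ L
    · have hT3 : Tᶜ ∩ B = L := by
        ext j
        have h1 := Finset.ext_iff.1 hT2 j
        have h3 : j ∈ L → j ∈ B := fun h => hL h
        simp only [Finset.mem_inter, Finset.mem_sdiff, Finset.mem_compl] at h1 ⊢
        tauto
      rw [← compl_mem_NS_univ, mem_NS_univ_of_inter hs hB hD hw hsep hE' hty hT3]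
      have h2 : T ≠ L ∪ (Bᶜ \ E') := by
        intro h
        apply hT1
        rw [h]
        ext j
        have h3 : j ∈ L → j ∈ B := fun h => hL h
        simp only [Finset.mem_inter, Finset.mem_union, Finset.mem_sdiff, Finset.mem_compl]
        tauto
      have h4 : Tᶜ ≠ L ∪ (Bᶜ \ E') ↔ T ≠ (B \ L) ∪ E' := by
        rw [← hc, not_iff_not]
        constructor
        · intro h; rw [← h, compl_compl]
        · intro h; rw [h, compl_compl]
      rw [h4]
      simp only [hT2, or_true, true_or, true_and, not_or]
      exact ⟨fun h => ⟨h2, h⟩, fun h => h.2⟩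
    · simp only [hT1, hT2, or_self, false_or]
      have h1 : T ≠ L ∪ (Bᶜ \ E') := by
        rintro rfl
        apply hT1
        ext j
        have h3 : j ∈ L → j ∈ B := fun h => hL h
        simp only [Finset.mem_inter, Finset.mem_union, Finset.mem_sdiff, Finset.mem_compl]
        tauto
      have h2 : T ≠ (B \ L) ∪ E' := by
        rintro rfl
        apply hT2
        ext j
        have h2 : j ∈ E' → j ∉ B := fun h => Finset.mem_compl.1 (hE'B h)
        simp only [Finset.mem_inter, Finset.mem_union, Finset.mem_sdiff]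
        tauto
      simp only [h1, h2, or_self, not_false_eq_true, and_true]
      rw [mem_NS_univ hs]
      constructor
      · rintro ⟨J, hJ, hTJ⟩
        by_cases hBJ : B ⊆ J
        · exfalso
          obtain ⟨q, hqB, rfl⟩ : ∃ q ∉ B, insert q B = J := by
            have h1 : (J \ B).card = 1 := by
              rw [Finset.card_sdiff_of_subset hBJ, hJ, hB.1]; omega
            obtain ⟨q, hq⟩ := Finset.card_eq_one.1 h1
            have hqJ : q ∈ J \ B := by rw [hq]; simp
            rw [Finset.mem_sdiff] at hqJ
            refine ⟨q, hqJ.2, ?_⟩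
            ext j
            have := Finset.ext_iff.1 hq j
            simp only [Finset.mem_sdiff, Finset.mem_singleton] at this
            rw [Finset.mem_insert]
            have hj : j ∈ B → j ∈ J := fun h => hBJ h
            tauto
          have h3 := NS_insert hB hD hqB (NS_subset_of hsep _ hTJ)
          have h4 : T ∩ insert q B ∩ B = T ∩ B := by
            ext j
            simp only [Finset.mem_inter, Finset.mem_insert]
            tauto
          rw [h4] at h3
          tauto
        · exact ⟨J, hJ, hBJ, by rwa [NS_eq_of_not_subset hB hw hsep hJ hBJ] at hTJ⟩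
      · rintro ⟨J, hJ, hBJ, hTJ⟩
        exact ⟨J, hJ, by rwa [NS_eq_of_not_subset hB hw hsep hJ hBJ]⟩

theorem sum_powersetCard_split {B : Finset (Fin s)} (hBc : B.card = d + 1)
    (F : Finset (Fin s) → ℝ) :
    ∑ J ∈ powersetCard (d + 2) (univ : Finset (Fin s)), F J =
      ∑ J ∈ (powersetCard (d + 2) (univ : Finset (Fin s))).filter (fun J => ¬ B ⊆ J), F J
        + ∑ q ∈ Bᶜ, F (insert q B) := by
  rw [← Finset.sum_filter_add_sum_filter_not _ (fun J => B ⊆ J), add_comm]
  congr 1
  symm
  apply Finset.sum_bij (fun q _ => insert q B)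
  · intro q hq
    rw [Finset.mem_compl] at hq
    rw [Finset.mem_filter, Finset.mem_powersetCard]
    exact ⟨⟨Finset.subset_univ _, by rw [Finset.card_insert_of_notMem hq, hBc]⟩,
      Finset.subset_insert _ _⟩
  · intro q hq q' hq' h
    rw [Finset.mem_compl] at hq hq'
    by_contra hne
    have h1 : q ∈ insert q' B := by rw [← h]; exact Finset.mem_insert_self _ _
    rcases Finset.mem_insert.1 h1 with h2 | h2
    · exact hne h2
    · exact hq h2
  · intro J hJ
    rw [Finset.mem_filter, Finset.mem_powersetCard] at hJ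
    obtain ⟨⟨_, hJc⟩, hBJ⟩ := hJ
    have h1 : (J \ B).card = 1 := by
      rw [Finset.card_sdiff_of_subset hBJ, hJc, hBc]; omega
    obtain ⟨q, hq⟩ := Finset.card_eq_one.1 h1
    have hqJ : q ∈ J \ B := by rw [hq]; simp
    rw [Finset.mem_sdiff] at hqJ
    refine ⟨q, Finset.mem_compl.2 hqJ.2, ?_⟩
    ext j
    have := Finset.ext_iff.1 hq j
    simp only [Finset.mem_sdiff, Finset.mem_singleton] at this
    rw [Finset.mem_insert]
    have hj : j ∈ B → j ∈ J := fun h => hBJ h
    tauto
  · intro q _; rfl

theorem card_type {B L E' : Finset (Fin s)} (hBc : B.card = d + 1) (hL : L ⊆ B) {q : Fin s}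
    (hq : q ∉ B) :
    (L ∪ (E' ∩ {q})).card = L.card + (if q ∈ E' then 1 else 0) ∧
    (insert q B \ (L ∪ (E' ∩ {q}))).card = d + 2 - (L.card + (if q ∈ E' then 1 else 0)) := by
  have hqL : q ∉ L := fun h => hq (hL h)
  have h1 : (L ∪ (E' ∩ {q})).card = L.card + (if q ∈ E' then 1 else 0) := by
    split_ifs with h
    · rw [Finset.inter_singleton_of_mem h, Finset.card_union_of_disjoint (by simpa using hqL),
        Finset.card_singleton]
    · rw [Finset.inter_singleton_of_notMem h, Finset.union_empty, add_zero]
  refine ⟨h1, ?_⟩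
  rw [Finset.card_sdiff_of_subset, h1, Finset.card_insert_of_notMem hq, hBc]
  intro j hj
  rcases Finset.mem_union.1 hj with h | h
  · exact Finset.mem_insert_of_mem (hL h)
  · rw [Finset.mem_singleton.1 (Finset.mem_inter.1 h).2]; exact Finset.mem_insert_self _ _

theorem Phi_type {v w : Fin s → VS d} {B L E E' : Finset (Fin s)} (hs : d + 2 ≤ s)
    (hB : SD v B) (hD : Data v B L E) (hw : Gen w)
    (hsep : ∀ J T : Finset (Fin s), Sep v J T → Sep w J T) (hE' : E' = E ∨ E' = Bᶜ \ E)
    (hty : IsType w B L E') (α β : ℕ → ℝ) :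
    Phi α β w = (∑ T ∈ KK v B L, α T.card +
      ∑ J ∈ (powersetCard (d + 2) (univ : Finset (Fin s))).filter (fun J => ¬ B ⊆ J),
        ∑ T ∈ NS v J, β T.card) + Jump α β s d L.card E'.card := by
  have hL : L ⊆ B := hD.1
  have hE'B : E' ⊆ Bᶜ := by
    rcases hE' with h | h
    · rw [h]; exact hD.2.1
    · rw [h]; exact Finset.sdiff_subset
  have hBcc : Bᶜ.card = s - d - 1 := by
    rw [Finset.card_compl, Fintype.card_fin, hB.1]; omega
  have hLB : L.card ≤ d + 1 := by rw [← hB.1]; exact Finset.card_le_card hL
  have hEc : E'.card ≤ s - d - 1 := by rw [← hBcc]; exact Finset.card_le_card hE'B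
  -- the circuits
  have h1 : ∑ J ∈ powersetCard (d + 2) (univ : Finset (Fin s)), ∑ T ∈ NS w J, β T.card =
      ∑ J ∈ (powersetCard (d + 2) (univ : Finset (Fin s))).filter (fun J => ¬ B ⊆ J),
        ∑ T ∈ NS v J, β T.card +
      ((E'.card : ℝ) * (β (L.card + 1) + β (d + 1 - L.card)) +
        ((s - d - 1 - E'.card : ℕ) : ℝ) * (β L.card + β (d + 2 - L.card))) := by
    rw [sum_powersetCard_split hB.1]
    congr 1
    · apply Finset.sum_congr rfl
      intro J hJ
      rw [Finset.mem_filter, Finset.mem_powersetCard] at hJ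
      rw [NS_eq_of_not_subset hB hw hsep hJ.1.2 hJ.2]
    · have h2 : ∀ q ∈ Bᶜ, ∑ T ∈ NS w (insert q B), β T.card =
          if q ∈ E' then (β (L.card + 1) + β (d + 1 - L.card))
            else (β L.card + β (d + 2 - L.card)) := by
        intro q hq
        rw [Finset.mem_compl] at hq
        rw [NS_insert_type hB.1 hw hty hq, Finset.sum_pair, (card_type hB.1 hL hq).1,
          (card_type hB.1 hL hq).2]
        · split_ifs with h
          · congr 2; omega
          · rw [add_zero]
        · intro h
          have h1 := Finset.ext_iff.1 h q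
          simp only [Finset.mem_sdiff, Finset.mem_insert_self, true_and] at h1
          tauto
      rw [Finset.sum_congr rfl h2, Finset.sum_ite, Finset.sum_const, Finset.sum_const,
        nsmul_eq_mul, nsmul_eq_mul]
      have h3 : Bᶜ.filter (fun q => q ∈ E') = E' := by
        ext q
        rw [Finset.mem_filter]
        exact ⟨fun h => h.2, fun h => ⟨hE'B h, h⟩⟩
      have h4 : (Bᶜ.filter (fun q => q ∉ E')).card = s - d - 1 - E'.card := by
        have : Bᶜ.filter (fun q => q ∉ E') = Bᶜ \ E' := by
          ext q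
          rw [Finset.mem_filter, Finset.mem_sdiff]
        rw [this, Finset.card_sdiff_of_subset hE'B, hBcc]
      rw [h3, h4]
  -- the full patterns
  have h2 : ∑ T ∈ NS w univ, α T.card = ∑ T ∈ KK v B L, α T.card
      - α (L.card + (s - d - 1 - E'.card)) - α (s - (L.card + (s - d - 1 - E'.card))) := by
    have hne : L ∪ (Bᶜ \ E') ≠ (B \ L) ∪ E' := by
      intro h
      obtain ⟨b0, hb0⟩ : B.Nonempty := by
        rw [← Finset.card_pos, hB.1]; omega
      have h3 := Finset.ext_iff.1 h b0
      have h4 : b0 ∉ E' := fun h => Finset.mem_compl.1 (hE'B h) hb0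
      simp only [Finset.mem_union, Finset.mem_sdiff, Finset.mem_compl, hb0, h4] at h3
      tauto
    have hsub : ({L ∪ (Bᶜ \ E'), (B \ L) ∪ E'} : Finset (Finset (Fin s))) ⊆ KK v B L := by
      intro T hT
      simp only [KK, Finset.mem_filter, Finset.mem_univ, true_and]
      left
      rcases Finset.mem_insert.1 hT with h | h
      · left
        rw [h]
        ext j
        have h3 : j ∈ L → j ∈ B := fun h => hL h
        simp only [Finset.mem_inter, Finset.mem_union, Finset.mem_sdiff, Finset.mem_compl]
        tauto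
      · right
        rw [Finset.mem_singleton.1 h]
        ext j
        have h2 : j ∈ E' → j ∉ B := fun h => Finset.mem_compl.1 (hE'B h)
        simp only [Finset.mem_inter, Finset.mem_union, Finset.mem_sdiff]
        tauto
    rw [NS_univ_type hs hB hD hw hsep hE' hty]
    have h3 := Finset.sum_sdiff (f := fun T : Finset (Fin s) => α T.card) hsub
    rw [Finset.sum_pair hne] at h3
    have c1 : (L ∪ (Bᶜ \ E')).card = L.card + (s - d - 1 - E'.card) := by
      rw [Finset.card_union_of_disjoint, Finset.card_sdiff_of_subset hE'B, hBcc]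
      rw [Finset.disjoint_left]
      intro j hj hj2
      rw [Finset.mem_sdiff, Finset.mem_compl] at hj2
      exact hj2.1 (hL hj)
    have c2 : ((B \ L) ∪ E').card = s - (L.card + (s - d - 1 - E'.card)) := by
      rw [Finset.card_union_of_disjoint, Finset.card_sdiff_of_subset hL, hB.1]
      · omega
      · rw [Finset.disjoint_left]
        intro j hj hj2
        exact (Finset.mem_compl.1 (hE'B hj2)) (Finset.mem_sdiff.1 hj).1
    rw [c1, c2] at h3
    linarith
  unfold Phi Jump
  rw [h1, h2]
  ring

theorem p_LOC : S_LOC := by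
  intro s d v B L E hs hB hD α β
  refine ⟨∑ T ∈ KK v B L, α T.card +
      ∑ J ∈ (powersetCard (d + 2) (univ : Finset (Fin s))).filter (fun J => ¬ B ⊆ J),
        ∑ T ∈ NS v J, β T.card, ?_⟩
  filter_upwards [sep_eventually v] with w hsep hw
  rcases type_dichotomy hB hD hw hsep with h | h
  · left
    exact ⟨h, Phi_type hs hB hD hw hsep (Or.inl rfl) h α β⟩
  · right
    exact ⟨h, Phi_type hs hB hD hw hsep (Or.inr rfl) h α β⟩

end

end Pool.Agent.Run7.h62.RV
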