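import Pool.Agent.Run7.h62.RV.Core

/-! Piece LOCG of MP_620441_co (helper62). -/

namespace Pool.Agent.Run7.h62.RV

open Finset Filter Topology

noncomputable section

open scoped Classical

variable {s d : ℕ}

theorem sgn_congr {T T' : Finset (Fin s)} {i : Fin s} (h : i ∈ T ↔ i ∈ T') :
    sgn T i = sgn T' i := by
  unfold sgn; simp only [h]

theorem Sep.mono {v : Fin s → VS d} {J J' T : Finset (Fin s)} (h : Sep v J T) (hJ : J' ⊆ J) :
    Sep v J' T := by
  obtain ⟨f, hf⟩ := h
  exact ⟨f, fun j hj => hf j (hJ hj)⟩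

theorem Sep.congr {v : Fin s → VS d} {J T T' : Finset (Fin s)} (h : Sep v J T)
    (hT : ∀ j ∈ J, (j ∈ T ↔ j ∈ T')) : Sep v J T' := by
  obtain ⟨f, hf⟩ := h
  exact ⟨f, fun j hj => by rw [← sgn_congr (hT j hj)]; exact hf j hj⟩

theorem sep_inter_iff {v : Fin s → VS d} {J T : Finset (Fin s)} :
    Sep v J (T ∩ J) ↔ Sep v J T := by
  constructor
  · intro h; exact h.congr (fun j hj => by simp [hj])
  · intro h; exact h.congr (fun j hj => by simp [hj])

theorem Sep.compl {v : Fin s → VS d} {J T : Finset (Fin s)} (h : Sep v J T) : Sep v J (J \ T) := by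
  obtain ⟨f, hf⟩ := h
  refine ⟨-f, fun j hj => ?_⟩
  have h1 := hf j hj
  by_cases hT : j ∈ T
  · rw [sgn_of_mem hT] at h1
    rw [sgn_of_notMem (by simp [hT])]
    simpa using h1
  · rw [sgn_of_notMem hT] at h1
    rw [sgn_of_mem (by simp [hT, hj])]
    simpa using h1

theorem sdiff_mem_NS {v : Fin s → VS d} {J T : Finset (Fin s)} (h : T ∈ NS v J) :
    J \ T ∈ NS v J := by
  rw [mem_NS] at h ⊢
  refine ⟨Finset.sdiff_subset, fun h2 => h.2 ?_⟩
  have := h2.compl
  rwa [Finset.sdiff_sdiff_eq_self h.1] at this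

theorem mem_NS_univ (hs : d + 2 ≤ s) {v : Fin s → VS d} {T : Finset (Fin s)} :
    T ∈ NS v univ ↔ ∃ J : Finset (Fin s), J.card = d + 2 ∧ T ∩ J ∈ NS v J := by
  rw [mem_NS]
  constructor
  · rintro ⟨_, h⟩
    by_contra h2
    push Not at h2
    apply h
    apply p_HELL s d v univ T (by simpa using hs)
    intro J _ hJ
    have h3 := h2 J hJ
    rw [mem_NS, sep_inter_iff] at h3
    by_contra h4
    exact h3 ⟨Finset.inter_subset_right, h4⟩
  · rintro ⟨J, hJ, h⟩
    rw [mem_NS, sep_inter_iff] at h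
    exact ⟨Finset.subset_univ _, fun h2 => h.2 (h2.mono (Finset.subset_univ _))⟩

theorem Sep.eventually {v : Fin s → VS d} {J T : Finset (Fin s)} (h : Sep v J T) :
    ∀ᶠ w in 𝓝 v, Sep w J T := by
  obtain ⟨f, hf⟩ := h
  have hfc : Continuous f := LinearMap.continuous_of_finiteDimensional f
  have h1 : ∀ᶠ w : Fin s → VS d in 𝓝 v, ∀ j ∈ J, 0 < sgn T j * f (w j) := by
    rw [Filter.eventually_all_finset]
    intro j hj
    have hc : Continuous (fun w : Fin s → VS d => sgn T j * f (w j)) :=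
      continuous_const.mul (hfc.comp (continuous_apply j))
    exact (hc.tendsto v).eventually (lt_mem_nhds (hf j hj))
  exact h1.mono (fun w hw => ⟨f, hw⟩)

/-- Separable patterns stay separable. -/
theorem sep_eventually (v : Fin s → VS d) :
    ∀ᶠ w in 𝓝 v, ∀ J T : Finset (Fin s), Sep v J T → Sep w J T := by
  rw [Filter.eventually_all]
  intro J
  rw [Filter.eventually_all]
  intro T
  by_cases h : Sep v J T
  · exact h.eventually.mono (fun w hw _ => hw)
  · exact Filter.Eventually.of_forall (fun w h2 => absurd h2 h)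

theorem NS_subset_of {v w : Fin s → VS d} (h : ∀ J T : Finset (Fin s), Sep v J T → Sep w J T)
    (J : Finset (Fin s)) : NS w J ⊆ NS v J := by
  intro T hT
  rw [mem_NS] at hT ⊢
  exact ⟨hT.1, fun h2 => hT.2 (h J T h2)⟩

theorem card_NS {v : Fin s → VS d} {J : Finset (Fin s)} (hJ : J.card = d + 2)
    (hgen : ∀ A ⊆ J, A.card ≤ d + 1 → LinearIndependent ℝ (fun i : A => v i)) :
    (NS v J).card = 2 := by
  obtain ⟨x, hx, _, _, _, h⟩ := p_CIRC s d v J hJ hgen
  rw [h, Finset.card_pair]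
  obtain ⟨j0, hj0⟩ : J.Nonempty := by
    rw [← Finset.card_pos, hJ]; omega
  intro h2
  have h3 := Finset.ext_iff.1 h2 j0
  simp only [Finset.mem_filter, hj0, true_and] at h3
  rcases lt_or_gt_of_ne (hx j0 hj0) with h4 | h4
  · exact lt_asymm h4 (h3.2 h4)
  · exact lt_asymm h4 (h3.1 h4)

theorem gen_eventually {v : Fin s → VS d} (A : Finset (Fin s))
    (h : LinearIndependent ℝ (fun i : A => v i)) :
    ∀ᶠ w in 𝓝 v, LinearIndependent ℝ (fun i : A => w i) := by
  have ho := isOpen_setOfPred_linearIndependent (𝕜 := ℝ) (E := VS d) (ι := A)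
  have hc : Continuous (fun (w : Fin s → VS d) (i : A) => w i) := by fun_prop
  exact hc.continuousAt.eventually (ho.mem_nhds h)

theorem p_LOCG : S_LOCG := by
  intro s d v hs hv α β
  have h1 : ∀ᶠ w in 𝓝 v, Gen w := by
    unfold Gen
    rw [Filter.eventually_all]
    intro A
    by_cases hA : A.card ≤ d + 1
    · exact (gen_eventually A (hv A hA)).mono (fun w hw _ => hw)
    · exact Filter.Eventually.of_forall (fun w h2 => absurd h2 hA)
  filter_upwards [h1, sep_eventually v] with w hw hsep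
  refine ⟨hw, ?_⟩
  have hJ : ∀ J : Finset (Fin s), J.card = d + 2 → NS w J = NS v J := by
    intro J hJ
    apply Finset.eq_of_subset_of_card_le (NS_subset_of hsep J)
    rw [card_NS hJ (fun A _ hA => hw A hA), card_NS hJ (fun A _ hA => hv A hA)]
  have hU : NS w univ = NS v univ := by
    ext T
    rw [mem_NS_univ hs, mem_NS_univ hs]
    constructor
    · rintro ⟨J, h, h2⟩; exact ⟨J, h, by rwa [hJ J h] at h2⟩
    · rintro ⟨J, h, h2⟩; exact ⟨J, h, by rwa [hJ J h]⟩
  unfold Phi
  rw [hU]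
  congr 1
  apply Finset.sum_congr rfl
  intro J hJ'
  rw [hJ J (Finset.mem_powersetCard.1 hJ').2]

end

end Pool.Agent.Run7.h62.RV
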